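import Pool.Agent.N314.OP.Lim
import Pool.Agent.H770R2.Maz5
import Pool.Agent.TH596.RO.Main

/-!
# Almost transitive norms with an asymptotically additive gauge

The starting file `H770R2/Maz5` treats transitive norms on separable spaces. For dense orbits the
full vectors are replaced by the starting theorem `TH596/RO/Main` (`ap_normal`): the reflections
`1 - 2 P` for the gauge projections `P` form a normal abelian group with totally bounded orbits.
-/

set_option autoImplicit false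
set_option linter.unusedSectionVars false

namespace Pool.Agent.N314.OP

open Filter Topology Set
open Pool.H770R2.Maz

section

variable {E : Type*} [NormedAddCommGroup E] [NormedSpace ℝ E] {Ph : ℝ → ℝ} (hG : Gauge Ph)

/-- the reflection of a gauge projection -/
lemma refl_norm (hG : Gauge Ph) {P : E →L[ℝ] E} (hP : Pr Ph P) (u : E) :
    ‖u - (2 : ℝ) • P u‖ = ‖u‖ := by
  rw [← ph_eq_iff hG, hP.2 (u - (2 : ℝ) • P u), hP.2 u]
  have e1 : P (u - (2 : ℝ) • P u) = - P u := by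
    rw [map_sub, map_smul, hP.1]; module
  have e2 : u - (2 : ℝ) • P u - P (u - (2 : ℝ) • P u) = u - P u := by
    rw [e1]; module
  rw [e2, e1, norm_neg]

/-- the reflection as an isometry -/
noncomputable def refl (hG : Gauge Ph) {P : E →L[ℝ] E} (hP : Pr Ph P) : E ≃ₗᵢ[ℝ] E where
  toFun u := u - (2 : ℝ) • P u
  invFun u := u - (2 : ℝ) • P u
  map_add' u v := by rw [map_add]; module
  map_smul' c u := by rw [map_smul, RingHom.id_apply]; module
  left_inv u := by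
    show u - (2 : ℝ) • P u - (2 : ℝ) • P (u - (2 : ℝ) • P u) = u
    rw [map_sub, map_smul, hP.1]; module
  right_inv u := by
    show u - (2 : ℝ) • P u - (2 : ℝ) • P (u - (2 : ℝ) • P u) = u
    rw [map_sub, map_smul, hP.1]; module
  norm_map' u := refl_norm hG hP u

/-- the symmetric difference of two commuting gauge projections -/
lemma pr_symm {P Q : E →L[ℝ] E} (hP : Pr Ph P) (hQ : Pr Ph Q)
    (hc : ∀ h, P (Q h) = Q (P h)) : Pr Ph (P + Q - (2 : ℝ) • (P * Q)) := by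
  have hv : ∀ u, (P + Q - (2 : ℝ) • (P * Q)) u = P u + Q u - (2 : ℝ) • P (Q u) := fun u => rfl
  constructor
  · intro u
    simp only [hv, map_add, map_sub, map_smul]
    rw [hP.1, hQ.1, ← hc u, hP.1, ← hc (Q u), hQ.1]
    have e1 : P (P (Q u)) = P (Q u) := hP.1 _
    have e2 : Q (P (Q u)) = P (Q u) := by rw [← hc (Q u), hQ.1]
    simp only [e1, e2]
    module
  · intro u
    rw [hv]
    have h0 := hP.2 u
    have h1 := hQ.2 (P u)
    have h2 := hQ.2 (u - P u)
    set v := P u + Q u - (2 : ℝ) • P (Q u) with hvd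
    have h3 := hP.2 v
    have h4 := hP.2 (u - v)
    have e1 : P v = P u - Q (P u) := by
      rw [hvd]; simp only [map_add, map_sub, map_smul]
      rw [hP.1, hP.1, ← hc u]; module
    have e2 : v - P v = Q (u - P u) := by
      rw [e1, hvd, map_sub, ← hc u]; module
    have e3 : P (u - v) = Q (P u) := by
      rw [map_sub, e1]; abel
    have e4 : u - v - P (u - v) = u - P u - Q (u - P u) := by
      rw [e3, hvd, map_sub, ← hc u]; module
    rw [e2, e1] at h3
    rw [e4, e3] at h4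
    have e5 : ‖P u - Q (P u)‖ = ‖P u - Q (P u)‖ := rfl
    linarith

/-- the group of the reflections -/
def NN (hG : Gauge Ph)
    (hcomm : ∀ P Q : E →L[ℝ] E, Pr Ph P → Pr Ph Q → ∀ h, P (Q h) = Q (P h)) :
    Subgroup (E ≃ₗᵢ[ℝ] E) where
  carrier := {U | ∃ P : E →L[ℝ] E, Pr Ph P ∧ ∀ u, U u = u - (2 : ℝ) • P u}
  one_mem' := ⟨0, pr_zero hG, fun u => by
    show u = _
    simp⟩
  mul_mem' := by
    rintro U V ⟨P, hP, hU⟩ ⟨Q, hQ, hV⟩
    refine ⟨P + Q - (2 : ℝ) • (P * Q), pr_symm hP hQ (hcomm P Q hP hQ), fun u => ?_⟩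
    show U (V u) = u - (2 : ℝ) • (P u + Q u - (2 : ℝ) • P (Q u))
    rw [hV, hU, map_sub, map_smul]
    module
  inv_mem' := by
    rintro U ⟨P, hP, hU⟩
    refine ⟨P, hP, fun u => ?_⟩
    have h1 : U (u - (2 : ℝ) • P u) = u := by
      rw [hU, map_sub, map_smul, hP.1]
      module
    show U.symm u = _
    rw [LinearIsometryEquiv.symm_apply_eq]
    exact h1.symm

lemma pr_conj {P : E →L[ℝ] E} (hP : Pr Ph P) (T : E ≃ₗᵢ[ℝ] E) :
    Pr Ph ((T.toContinuousLinearEquiv : E →L[ℝ] E) * P *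
      (T.symm.toContinuousLinearEquiv : E →L[ℝ] E)) := by
  have hQ : ∀ h, ((T.toContinuousLinearEquiv : E →L[ℝ] E) * P *
      (T.symm.toContinuousLinearEquiv : E →L[ℝ] E)) h = T (P (T.symm h)) := fun h => rfl
  refine ⟨fun v => ?_, fun v => ?_⟩
  · rw [hQ, hQ, T.symm_apply_apply, hP.1]
  · have h2 := hP.2 (T.symm v)
    have h3 : v - T (P (T.symm v)) = T (T.symm v - P (T.symm v)) := by
      rw [map_sub, T.apply_symm_apply]
    rw [hQ, h3, T.norm_map, T.norm_map, ← h2, T.symm.norm_map]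

lemma refl_gauge {P : E →L[ℝ] E} (hP : Pr Ph P) (k v : E) :
    Ph ‖k + (v - (2 : ℝ) • P v)‖ + Ph ‖k - (v - (2 : ℝ) • P v)‖ =
      Ph ‖v + k‖ + Ph ‖v - k‖ := by
  have h1 := hP.2 (k + (v - (2 : ℝ) • P v))
  have h2 := hP.2 (k - (v - (2 : ℝ) • P v))
  have h3 := hP.2 (v + k)
  have h4 := hP.2 (v - k)
  have e1 : P (k + (v - (2 : ℝ) • P v)) = - P (v - k) := by
    simp only [map_add, map_sub, map_smul, hP.1]; module
  have e2 : k + (v - (2 : ℝ) • P v) - P (k + (v - (2 : ℝ) • P v)) = v + k - P (v + k) := by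
    rw [e1]; simp only [map_add, map_sub]; module
  have e3 : P (k - (v - (2 : ℝ) • P v)) = P (v + k) := by
    simp only [map_add, map_sub, map_smul, hP.1]; module
  have e4 : k - (v - (2 : ℝ) • P v) - P (k - (v - (2 : ℝ) • P v)) = -(v - k - P (v - k)) := by
    rw [e3]; simp only [map_add, map_sub]; module
  rw [e2, e1, norm_neg] at h1
  rw [e4, e3, norm_neg] at h2
  linarith

variable {V : Type*} [AddCommGroup V] [Module ℝ V] [TopologicalSpace V] [IsTopologicalAddGroup V]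
  [ContinuousSMul ℝ V] [T2Space V] {j : E →ₗ[ℝ] V}

/-- a vector on which reflections tend to zero is a parallelogram vector -/
lemma parv_of_null (hm : AsympV Ph j) {U : ℕ → E ≃ₗᵢ[ℝ] E}
    (hU : ∀ n, ∃ P : E →L[ℝ] E, Pr Ph P ∧ ∀ u, U n u = u - (2 : ℝ) • P u) {v : E}
    (hv : Tendsto (fun n => j (U n v)) atTop (𝓝 0)) : Parv Ph v := by
  intro k
  have hbd : ∃ C, ∀ n, ‖U n v‖ ≤ C := ⟨‖v‖, fun n => ((U n).norm_map v).le⟩
  have hbd' : ∃ C, ∀ n, ‖-U n v‖ ≤ C := ⟨‖v‖, fun n => by rw [norm_neg, (U n).norm_map v]⟩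
  have hv' : Tendsto (fun n => j (-U n v)) atTop (𝓝 0) := by
    have := hv.neg
    simpa only [map_neg, neg_zero] using this
  have h1 := (hm _ hbd hv k).add (hm _ hbd' hv' k)
  have h2 : Tendsto (fun _ : ℕ => Ph ‖v + k‖ + Ph ‖v - k‖ - Ph ‖v‖ - Ph ‖v‖) atTop
      (𝓝 (Ph ‖k‖ + Ph ‖k‖)) := by
    refine h1.congr fun n => ?_
    obtain ⟨P, hP, hUP⟩ := hU n
    rw [norm_neg, (U n).norm_map, ← sub_eq_add_neg, hUP, ← refl_gauge hP k v]
    ring
  have h3 := tendsto_nhds_unique h2 tendsto_const_nhds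
  linarith

/-- sequences of reflections have subsequences which converge pointwise -/
lemma refl_subseq (hG : Gauge Ph) [CompleteSpace E] [TopologicalSpace.SeparableSpace E]
    (hj : Function.Injective j)
    (hK : BallCpt j) (hm : AsympV Ph j)
    (hnp : ∀ a : E, a ≠ 0 → ¬ ∀ s : ℝ, Parv Ph (s • a)) {U : ℕ → E ≃ₗᵢ[ℝ] E}
    (hU : ∀ n, ∃ P : E →L[ℝ] E, Pr Ph P ∧ ∀ u, U n u = u - (2 : ℝ) • P u) (x : E) :
    ∃ (ψ : ℕ → ℕ) (a : E), StrictMono ψ ∧ Tendsto (fun n => U (ψ n) x) atTop (𝓝 a) := by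
  obtain ⟨ψ, hψ, W, hW1, hW2⟩ := exists_oplim hj hK
    (fun n => ((U n : E ≃L[ℝ] E) : E →L[ℝ] E)) (fun n u => (U n).norm_map u)
  have hsymm : ∀ n u, (U n).symm u = U n u := by
    intro n u
    obtain ⟨P, hP, hUP⟩ := hU n
    rw [LinearIsometryEquiv.symm_apply_eq, hUP, hUP, map_sub, map_smul, hP.1]
    module
  have hT : ∀ u, Tendsto (fun n => j (U (ψ n) u)) atTop (𝓝 (j (W u))) := hW2
  have hS : ∀ u, Tendsto (fun n => j ((U (ψ n)).symm u)) atTop (𝓝 (j (W u))) := by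
    intro u
    simpa only [hsymm] using hT u
  have hA : Adj Ph W W := adj_of_oplim hm (fun n => U (ψ n)) hT hS
  rcases dichotomy hG hA hW1 hW1 with hPr | ⟨a, ha, hpa⟩
  swap
  · exact absurd hpa (hnp a ha)
  -- the kernel of `W` is trivial
  have hker : ∀ v, W v = 0 → v = 0 := by
    intro v hv
    by_contra hv0
    apply hnp v hv0
    intro s
    refine parv_of_null hm (U := fun n => U (ψ n)) (fun n => hU _) ?_
    have := hT (s • v)
    rwa [map_smul, hv, smul_zero, map_zero] at this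
  have hsq : ∀ u, W (W u) = u := by
    intro u
    have h1 : W (W (u - W (W u))) = 0 := by
      have := hPr.1 u
      have h2 : W (W (W (W u))) = W (W u) := this
      rw [map_sub, map_sub, h2, sub_self]
    have h3 := hker _ (hker _ h1)
    exact (sub_eq_zero.1 h3).symm
  have hiso : ∀ u, ‖W u‖ = ‖u‖ := by
    intro u
    refine le_antisymm (hW1 u) ?_
    have := hW1 (W u)
    rwa [hsq] at this
  refine ⟨ψ, W x, hψ, ?_⟩
  have hbd : ∃ C, ∀ n, ‖U (ψ n) x - W x‖ ≤ C := ⟨‖x‖ + ‖x‖, fun n =>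
    (norm_sub_le _ _).trans (by rw [(U (ψ n)).norm_map, hiso])⟩
  have hnull : Tendsto (fun n => j (U (ψ n) x - W x)) atTop (𝓝 0) := by
    have := (hT x).sub (tendsto_const_nhds (x := j (W x)))
    simpa only [map_sub, sub_self] using this
  have h1 := hm _ hbd hnull (W x)
  have e1 : ∀ n, W x + (U (ψ n) x - W x) = U (ψ n) x := fun n => by abel
  simp only [e1, LinearIsometryEquiv.norm_map, hiso] at h1
  have h2 : Tendsto (fun n => Ph ‖U (ψ n) x - W x‖) atTop (𝓝 0) := by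
    have := (tendsto_const_nhds (x := Ph ‖x‖)).sub h1
    rw [sub_self] at this
    refine this.congr fun n => ?_
    ring
  rw [tendsto_iff_norm_sub_tendsto_zero]
  rw [Metric.tendsto_atTop]
  intro ε hε
  have h3 := h2.eventually_lt_const (ph_pos hG hε)
  obtain ⟨N, hN⟩ := eventually_atTop.1 h3
  refine ⟨N, fun n hn => ?_⟩
  rw [Real.dist_eq, sub_zero, abs_norm]
  exact norm_lt_of_ph hG hε (hN n hn)

lemma refl_tb (hG : Gauge Ph) [CompleteSpace E] [TopologicalSpace.SeparableSpace E]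
    (hj : Function.Injective j)
    (hK : BallCpt j) (hm : AsympV Ph j)
    (hnp : ∀ a : E, a ≠ 0 → ¬ ∀ s : ℝ, Parv Ph (s • a))
    (hcomm : ∀ P Q : E →L[ℝ] E, Pr Ph P → Pr Ph Q → ∀ h, P (Q h) = Q (P h)) (x : E) :
    TotallyBounded {y | ∃ S ∈ NN hG hcomm, y = S x} := by
  have hc : IsSeqCompact (closure {y | ∃ S ∈ NN hG hcomm, y = S x}) := by
    intro a ha
    have h1 : ∀ n : ℕ, ∃ U : E ≃ₗᵢ[ℝ] E, U ∈ NN hG hcomm ∧ dist (a n) (U x) < 1 / ((n : ℝ) + 1) := by
      intro n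
      obtain ⟨_, ⟨U, hU, rfl⟩, hd⟩ := Metric.mem_closure_iff.1 (ha n) (1 / ((n : ℝ) + 1))
        (by positivity)
      exact ⟨U, hU, hd⟩
    choose U hU hd using h1
    obtain ⟨ψ, b, hψ, hb⟩ := refl_subseq hG hj hK hm hnp (U := U) hU x
    refine ⟨b, ?_, ψ, hψ, ?_⟩
    · exact mem_closure_of_tendsto hb (Eventually.of_forall fun n => ⟨U (ψ n), hU _, rfl⟩)
    · have h2 : Tendsto (fun n => dist (a (ψ n)) (U (ψ n) x)) atTop (𝓝 0) := by
        refine squeeze_zero (fun _ => dist_nonneg) (fun n => (hd (ψ n)).le) ?_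
        exact tendsto_one_div_add_atTop_nhds_zero_nat.comp hψ.tendsto_atTop
      exact (tendsto_iff_of_dist h2).2 hb
  exact hc.isCompact.totallyBounded.subset subset_closure

/-- in an almost transitive space without parallelogram vectors every gauge projection is
trivial -/
theorem pr_trivial_AT (hG : Gauge Ph) [CompleteSpace E] [TopologicalSpace.SeparableSpace E]
    (hinf : ¬ FiniteDimensional ℝ E) (hj : Function.Injective j)
    (hK : BallCpt j) (hm : AsympV Ph j) (hA : AT E)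
    (hnp : ∀ a : E, a ≠ 0 → ¬ ∀ s : ℝ, Parv Ph (s • a)) {P : E →L[ℝ] E} (hP : Pr Ph P) :
    (∀ h, P h = h) ∨ ∀ h, P h = 0 := by
  have hcomm : ∀ P Q : E →L[ℝ] E, Pr Ph P → Pr Ph Q → ∀ h, P (Q h) = Q (P h) :=
    fun P Q hP hQ h => pr_comm hG hnp hP hQ h
  have hnt : Nontrivial E := by
    by_contra h
    rw [not_nontrivial_iff_subsingleton] at h
    exact hinf inferInstance
  obtain ⟨x0, hx0⟩ := exists_ne (0 : E)
  have hAT : Pool.Agent.TH596.RO.AT (⊤ : Subgroup (E ≃ₗᵢ[ℝ] E)) := by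
    intro x y hx hy ε hε
    obtain ⟨T, hT⟩ := hA x y hx hy ε hε
    exact ⟨T, Subgroup.mem_top _, hT⟩
  have hN : ∀ T ∈ (⊤ : Subgroup (E ≃ₗᵢ[ℝ] E)), ∀ S ∈ NN hG hcomm, T * S * T⁻¹ ∈ NN hG hcomm := by
    rintro T - S ⟨Q, hQ, hS⟩
    refine ⟨_, pr_conj hQ T, fun u => ?_⟩
    show T (S (T.symm u)) = u - (2 : ℝ) • T (Q (T.symm u))
    rw [hS, map_sub, map_smul, T.apply_symm_apply]
  have hmem := Pool.Agent.TH596.RO.ap_normal hinf hAT hN hx0
    (refl_tb hG hj hK hm hnp hcomm x0) (S := refl hG hP) ⟨P, hP, fun u => rfl⟩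
  have hcore := (Pool.Agent.TH596.RO.core_DD hinf hAT).2
  set U : E →L[ℝ] E := ((refl hG hP).toContinuousLinearEquiv : E →L[ℝ] E) with hUdef
  have hUu : ∀ u, U u = u - (2 : ℝ) • P u := fun u => rfl
  have h1 : U - 1 ∈ Pool.Agent.TH596.RO.DD (⊤ : Subgroup (E ≃ₗᵢ[ℝ] E)) :=
    Subalgebra.sub_mem _ hmem (Subalgebra.one_mem _)
  have h2 : U + 1 ∈ Pool.Agent.TH596.RO.DD (⊤ : Subgroup (E ≃ₗᵢ[ℝ] E)) :=
    Subalgebra.add_mem _ hmem (Subalgebra.one_mem _)
  have h3 : (U - 1) ((U + 1) x0) = 0 := by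
    show U (U x0 + x0) - (U x0 + x0) = 0
    simp only [hUu, map_add, map_sub, map_smul, hP.1]
    module
  have h4 := hcore _ h1 ((U + 1) x0)
  rw [h3, norm_zero, hcore _ h2 x0] at h4
  have h5 : ‖U - 1‖ = 0 ∨ ‖U + 1‖ = 0 := by
    rcases mul_eq_zero.1 h4.symm with h | h
    · exact Or.inl h
    · rcases mul_eq_zero.1 h with h | h
      · exact Or.inr h
      · exact absurd (norm_eq_zero.1 h) hx0
  rcases h5 with h | h
  · right
    intro u
    have h6 : (U - 1) u = 0 := by rw [norm_eq_zero.1 h]; rfl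
    have h7 : u - (2 : ℝ) • P u - u = 0 := h6
    have h8 : (2 : ℝ) • P u = 0 := by
      have : (2 : ℝ) • P u = -(u - (2 : ℝ) • P u - u) := by module
      rw [this, h7, neg_zero]
    exact (smul_eq_zero.1 h8).resolve_left two_ne_zero
  · left
    intro u
    have h6 : (U + 1) u = 0 := by rw [norm_eq_zero.1 h]; rfl
    have h7 : u - (2 : ℝ) • P u + u = 0 := h6
    have h8 : (2 : ℝ) • (P u - u) = 0 := by
      have : (2 : ℝ) • (P u - u) = -(u - (2 : ℝ) • P u + u) := by module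
      rw [this, h7, neg_zero]
    exact sub_eq_zero.1 ((smul_eq_zero.1 h8).resolve_left two_ne_zero)

/-- the set of parallelogram vectors is invariant and closed -/
theorem parv_all_AT (hG : Gauge Ph) (hA : AT E) {a : E} (ha : a ≠ 0)
    (H : ∀ s : ℝ, Parv Ph (s • a)) (x : E) : Parv Ph x := by
  have ha' : 0 < ‖a‖ := norm_pos_iff.2 ha
  rcases eq_or_ne x 0 with rfl | hx
  · have := H 0
    rwa [zero_smul] at this
  have hx' : 0 < ‖x‖ := norm_pos_iff.2 hx
  have hT : ∀ n : ℕ, ∃ T : E ≃ₗᵢ[ℝ] E,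
      ‖T (‖a‖⁻¹ • a) - ‖x‖⁻¹ • x‖ < 1 / ((n : ℝ) + 1) := fun n =>
    hA _ _ (by rw [norm_smul, norm_inv, norm_norm, inv_mul_cancel₀ ha'.ne'])
      (by rw [norm_smul, norm_inv, norm_norm, inv_mul_cancel₀ hx'.ne']) _ (by positivity)
  choose T hT using hT
  intro k
  have hlim : Tendsto (fun n => T n (‖a‖⁻¹ • a)) atTop (𝓝 (‖x‖⁻¹ • x)) := by
    rw [tendsto_iff_norm_sub_tendsto_zero]
    exact squeeze_zero (fun _ => norm_nonneg _) (fun n => (hT n).le)
      tendsto_one_div_add_atTop_nhds_zero_nat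
  have hlim2 : Tendsto (fun n => T n ((‖x‖ * ‖a‖⁻¹) • a)) atTop (𝓝 x) := by
    have := hlim.const_smul ‖x‖
    rw [smul_smul, mul_inv_cancel₀ hx'.ne', one_smul] at this
    refine this.congr fun n => ?_
    rw [← map_smul, smul_smul]
  have hP : ∀ n, Ph ‖T n ((‖x‖ * ‖a‖⁻¹) • a) + k‖ + Ph ‖T n ((‖x‖ * ‖a‖⁻¹) • a) - k‖ =
      2 * Ph ‖T n ((‖x‖ * ‖a‖⁻¹) • a)‖ + 2 * Ph ‖k‖ := by
    intro n
    have h2 := H (‖x‖ * ‖a‖⁻¹) ((T n).symm k)
    have h3 : ∀ v : E, ‖T n v‖ = ‖v‖ := (T n).norm_map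
    rw [← h3, ← h3 (_ - _), map_add, map_sub, (T n).apply_symm_apply, ← h3 (_ • a),
      ← h3 ((T n).symm k), (T n).apply_symm_apply] at h2
    exact h2
  have hc := hG.1
  have l1 : Tendsto (fun n => Ph ‖T n ((‖x‖ * ‖a‖⁻¹) • a) + k‖ +
      Ph ‖T n ((‖x‖ * ‖a‖⁻¹) • a) - k‖) atTop (𝓝 (Ph ‖x + k‖ + Ph ‖x - k‖)) :=
    ((hc.tendsto _).comp (hlim2.add_const k).norm).add
      ((hc.tendsto _).comp (hlim2.sub_const k).norm)
  have l2 : Tendsto (fun n => 2 * Ph ‖T n ((‖x‖ * ‖a‖⁻¹) • a)‖ + 2 * Ph ‖k‖) atTop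
      (𝓝 (2 * Ph ‖x‖ + 2 * Ph ‖k‖)) :=
    (((hc.tendsto _).comp hlim2.norm).const_mul 2).add_const _
  exact tendsto_nhds_unique (l1.congr hP) l2

/-- **Main theorem for adjoint pairs.** -/
theorem parv_of_adj_AT (hG : Gauge Ph) [CompleteSpace E] [TopologicalSpace.SeparableSpace E]
    (hinf : ¬ FiniteDimensional ℝ E) (hj : Function.Injective j)
    (hK : BallCpt j) (hm : AsympV Ph j) (hAT : AT E)
    {T S : E →L[ℝ] E} (hA : Adj Ph T S)
    (hT : ∀ u, ‖T u‖ ≤ ‖u‖) (hS : ∀ u, ‖S u‖ ≤ ‖u‖)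
    (hne : ∃ u, T u ≠ 0) (hni : ∃ u, ‖T u‖ ≠ ‖u‖) (x : E) : Parv Ph x := by
  by_contra hx
  have hnp : ∀ a : E, a ≠ 0 → ¬ ∀ s : ℝ, Parv Ph (s • a) :=
    fun a ha H => hx (parv_all_AT hG hAT ha H x)
  rcases dichotomy hG hA hT hS with hW | ⟨a, ha, hpa⟩
  · have key : ∀ u, -2 * Ph ‖T u‖ = B Ph u (-((S * T) u)) := by
      intro u
      rw [← B_neg_self hG, ← map_neg, hA, ← map_neg]; rfl
    rcases pr_trivial_AT hG hinf hj hK hm hAT hnp hW with h1 | h1
    · obtain ⟨u, hu⟩ := hni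
      apply hu
      have := key u
      rw [h1, B_neg_self hG] at this
      rw [← ph_eq_iff hG]; linarith
    · obtain ⟨u, hu⟩ := hne
      apply hu
      have := key u
      rw [h1, neg_zero, B_zero hG] at this
      rw [← ph_eq_zero hG]; linarith
  · exact hnp a ha hpa

/-- norm null sequences are null for `j` -/
lemma j_null (hj : Function.Injective j) (hK : BallCpt j) {u : ℕ → E}
    (hu : Tendsto u atTop (𝓝 0)) : Tendsto (fun n => j (u n)) atTop (𝓝 0) := by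
  apply tendsto_of_subseq_tendsto
  intro ns hns
  obtain ⟨C, hC⟩ := (hu.norm).bddAbove_range
  have hC' : ∀ n, ‖u n‖ ≤ C := fun n => hC ⟨n, rfl⟩
  obtain ⟨a, -, φ, hφ, hlim⟩ := ballCpt_scaled hK ((norm_nonneg _).trans (hC' 0))
    (u := fun n => u (ns n)) (fun n => hC' _)
  refine ⟨φ, ?_⟩
  have ha : a = 0 := by
    by_contra h0
    have hpos : 0 < ‖a‖ := norm_pos_iff.2 h0
    have h1 : Tendsto (fun k => u (ns (φ k))) atTop (𝓝 0) :=
      hu.comp (hns.comp hφ.tendsto_atTop)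
    have h2 : ∀ᶠ k in atTop, ‖u (ns (φ k))‖ < ‖a‖ / 2 := by
      have := h1.norm
      rw [norm_zero] at this
      exact this.eventually_lt_const (by positivity)
    obtain ⟨N, hN⟩ := eventually_atTop.1 h2
    have h3 : ‖a‖ ≤ ‖a‖ / 2 := by
      refine norm_le_of_tau hj hK (by positivity) (u := fun k => u (ns (φ (k + N))))
        (fun k => (hN _ (Nat.le_add_left _ _)).le) ?_
      exact hlim.comp (tendsto_add_atTop_nat N)
    linarith
  rw [ha, map_zero] at hlim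
  exact hlim

/-- **Main theorem.** -/
theorem parv_AT (hG : Gauge Ph) [CompleteSpace E] [TopologicalSpace.SeparableSpace E]
    (hinf : ¬ FiniteDimensional ℝ E) (hj : Function.Injective j)
    (hK : BallCpt j) (hm : AsympV Ph j)
    (hAT : AT E) (x : E) : Parv Ph x := by
  obtain ⟨w, C, ρ, hwC, hw0, hρ, hwρ⟩ := Pool.H770R2.Maz.exists_null hK hinf
  have hnt : Nontrivial E := by
    by_contra h
    rw [not_nontrivial_iff_subsingleton] at h
    exact hinf inferInstance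
  obtain ⟨e, he1⟩ := exists_norm_eq E (zero_le_one (α := ℝ))
  have hP0 : 0 < Ph (1 / 2) := ph_pos hG (by norm_num)
  have hP1 : Ph (1 / 2) < Ph 1 :=
    hG.2.1 (Set.mem_Ici.2 (by norm_num)) (Set.mem_Ici.2 (by norm_num)) (by norm_num)
  obtain ⟨s, hs, hs2⟩ : ∃ s ∈ Set.Icc (0 : ℝ) 1, Ph s = Ph 1 - Ph (1 / 2) := by
    have := intermediate_value_Icc (zero_le_one (α := ℝ)) hG.1.continuousOn
    apply this
    rw [hG.2.2]
    exact ⟨by linarith, by linarith⟩
  let v : ℕ → E := fun n => (1 / 2 : ℝ) • e + (s / ρ) • w n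
  have hsρ : 0 ≤ s / ρ := div_nonneg hs.1 hρ.le
  have hnull : Tendsto (fun n => j ((s / ρ) • w n)) atTop (𝓝 0) := by
    have := hw0.const_smul (s / ρ)
    simpa only [map_smul, smul_zero] using this
  have hv1 : Tendsto (fun n => Ph ‖v n‖) atTop (𝓝 (Ph 1)) := by
    have hbd : ∃ C', ∀ n, ‖(s / ρ) • w n‖ ≤ C' := ⟨s / ρ * C, fun n => by
      rw [norm_smul, Real.norm_of_nonneg hsρ]
      exact mul_le_mul_of_nonneg_left (hwC n) hsρ⟩
    have h1 := hm (fun n => (s / ρ) • w n) hbd hnull ((1 / 2 : ℝ) • e)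
    have e1 : Tendsto (fun n => Ph ‖(s / ρ) • w n‖) atTop (𝓝 (Ph s)) := by
      refine (hG.1.tendsto s).comp ?_
      have h2 := hwρ.const_mul (s / ρ)
      rw [div_mul_cancel₀ _ hρ.ne'] at h2
      refine h2.congr fun n => ?_
      rw [norm_smul, Real.norm_of_nonneg hsρ]
    have e2 : ‖(1 / 2 : ℝ) • e‖ = 1 / 2 := by
      rw [norm_smul, he1, mul_one, Real.norm_of_nonneg (by norm_num)]
    rw [e2] at h1
    have h2 := h1.add e1
    have e3 : Ph (1 / 2) + Ph s = Ph 1 := by rw [hs2]; ring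
    rw [e3] at h2
    refine h2.congr fun n => ?_
    simp only [v]
    ring
  have hv2 : Tendsto (fun n => ‖v n‖) atTop (𝓝 1) := by
    rw [Metric.tendsto_atTop]
    intro ε hε
    set δ := min ε (1 / 2) with hδ
    have hδ0 : 0 < δ := lt_min hε (by norm_num)
    have hδ1 : δ ≤ 1 / 2 := min_le_right _ _
    have h1 : Ph (1 - δ) < Ph 1 :=
      hG.2.1 (Set.mem_Ici.2 (by linarith)) (Set.mem_Ici.2 (by norm_num)) (by linarith)
    have h2 : Ph 1 < Ph (1 + δ) :=
      hG.2.1 (Set.mem_Ici.2 (by norm_num)) (Set.mem_Ici.2 (by linarith)) (by linarith)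
    have h3 := (hv1.eventually_const_lt h1).and (hv1.eventually_lt_const h2)
    obtain ⟨N, hN⟩ := eventually_atTop.1 h3
    refine ⟨N, fun n hn => ?_⟩
    obtain ⟨h4, h5⟩ := hN n hn
    have h6 : 1 - δ < ‖v n‖ :=
      (hG.2.1.lt_iff_lt (Set.mem_Ici.2 (by linarith)) (Set.mem_Ici.2 (norm_nonneg _))).1 h4
    have h7 : ‖v n‖ < 1 + δ :=
      (hG.2.1.lt_iff_lt (Set.mem_Ici.2 (norm_nonneg _)) (Set.mem_Ici.2 (by linarith))).1 h5
    rw [Real.dist_eq, abs_lt]
    have := min_le_left ε (1 / 2)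
    constructor <;> linarith
  -- isometries
  have hex : ∀ n : ℕ, ∃ τ : E ≃ₗᵢ[ℝ] E, v n ≠ 0 →
      ‖τ e - ‖v n‖⁻¹ • v n‖ < 1 / ((n : ℝ) + 1) := by
    intro n
    by_cases hv : v n = 0
    · exact ⟨LinearIsometryEquiv.refl ℝ E, fun h => absurd hv h⟩
    · have h1 : ‖‖v n‖⁻¹ • v n‖ = 1 := by
        rw [norm_smul, norm_inv, norm_norm, inv_mul_cancel₀ (norm_ne_zero_iff.2 hv)]
      obtain ⟨τ, hτ⟩ := hAT e _ he1 h1 (1 / ((n : ℝ) + 1)) (by positivity)
      exact ⟨τ, fun _ => hτ⟩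
  choose τ hτ using hex
  obtain ⟨ψ, hψ, T, hT1, hT2⟩ := exists_oplim hj hK
    (fun n => ((τ n : E ≃L[ℝ] E) : E →L[ℝ] E)) (fun n u => (τ n).norm_map u)
  obtain ⟨ψ', hψ', S, hS1, hS2⟩ := exists_oplim hj hK
    (fun n => (((τ (ψ n)).symm : E ≃L[ℝ] E) : E →L[ℝ] E))
    (fun n u => (τ (ψ n)).symm.norm_map u)
  have hT3 : ∀ u, Tendsto (fun n => j (τ (ψ (ψ' n)) u)) atTop (𝓝 (j (T u))) :=
    fun u => (hT2 u).comp hψ'.tendsto_atTop
  have hA : Adj Ph T S := adj_of_oplim hm (fun n => τ (ψ (ψ' n))) hT3 hS2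
  have hTe : T e = (1 / 2 : ℝ) • e := by
    apply hj
    have h1 := hT2 e
    have h2 : Tendsto (fun n => j (τ (ψ n) e)) atTop (𝓝 (j ((1 / 2 : ℝ) • e))) := by
      have h3 : Tendsto (fun n => ‖v n‖⁻¹ • j (v n)) atTop
          (𝓝 ((1 : ℝ)⁻¹ • j ((1 / 2 : ℝ) • e))) := by
        refine (hv2.inv₀ one_ne_zero).smul ?_
        have := (tendsto_const_nhds (x := j ((1 / 2 : ℝ) • e))).add hnull
        rw [add_zero] at this
        refine this.congr fun n => ?_
        simp only [v, map_add]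
      have h4 : Tendsto (fun n => j (τ n e)) atTop (𝓝 (j ((1 / 2 : ℝ) • e))) := by
        have h5 : ∀ᶠ n in atTop, v n ≠ 0 := by
          have := hv2.eventually_const_lt (show (1 / 2 : ℝ) < 1 by norm_num)
          filter_upwards [this] with n hn h0
          rw [h0, norm_zero] at hn
          linarith
        have h6 : Tendsto (fun n => τ n e - ‖v n‖⁻¹ • v n) atTop (𝓝 0) := by
          refine squeeze_zero_norm' ?_ tendsto_one_div_add_atTop_nhds_zero_nat
          filter_upwards [h5] with n hn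
          exact (hτ n hn).le
        have h7 := (j_null hj hK h6).add h3
        rw [zero_add, inv_one, one_smul] at h7
        refine h7.congr fun n => ?_
        rw [map_sub, map_smul]
        abel
      exact h4.comp hψ.tendsto_atTop
    exact tendsto_nhds_unique h1 h2
  have he0 : e ≠ 0 := by
    intro h; rw [h, norm_zero] at he1; exact zero_ne_one he1
  refine parv_of_adj_AT hG hinf hj hK hm hAT hA hT1 hS1 ⟨e, ?_⟩ ⟨e, ?_⟩ x
  · rw [hTe]
    exact smul_ne_zero (by norm_num) he0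
  · rw [hTe, norm_smul, he1, Real.norm_of_nonneg (by norm_num)]
    norm_num


end

end Pool.Agent.N314.OP
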