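import Pool.Agent.N314.OP.Ext

/-!
# Super-associativity of the extremal limits
-/

set_option autoImplicit false

namespace Pool.Agent.N314.OP

open Filter Topology

variable {E : Type*} [NormedAddCommGroup E] [NormedSpace ℝ E]

variable {σ : ℝ} {F : ℝ → ℝ → ℝ}

lemma Ext.tendsto [Nontrivial E] (h : Ext E σ F) {u : ℕ → ℝ} (hu0 : ∀ n, 0 ≤ u n) {a t : ℝ}
    (ht : 0 < t) (hu : Tendsto u atTop (𝓝 a)) :
    Tendsto (fun n => F (u n) t) atTop (𝓝 (F a t)) := by
  have ha : 0 ≤ a := ge_of_tendsto' hu hu0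
  rw [tendsto_iff_dist_tendsto_zero] at hu ⊢
  refine squeeze_zero (fun n => dist_nonneg) (fun n => ?_) hu
  rw [Real.dist_eq, Real.dist_eq]
  have := h.lip (hu0 n) ha ht ht
  simpa using this

lemma one_div_tendsto : Tendsto (fun n : ℕ => 1 / ((n : ℝ) + 1)) atTop (𝓝 0) :=
  tendsto_one_div_add_atTop_nhds_zero_nat

/-- **Super-associativity.** -/
theorem Ext.super [Nontrivial E] (hW : WSC E) (hS : Sep E) (h : Ext E σ F) {r s t : ℝ}
    (hr : 0 ≤ r) (hs : 0 < s) (ht : 0 < t) :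
    σ * F (F r s) t ≤ σ * F r (F s t) := by
  obtain ⟨e, he⟩ := exists_norm_eq E (zero_le_one (α := ℝ))
  obtain ⟨g, hg⟩ := hS
  obtain ⟨x, hx⟩ : ∃ x : E, x = r • e := ⟨_, rfl⟩
  have hxr : ‖x‖ = r := by rw [hx, norm_smul, he, Real.norm_of_nonneg hr, mul_one]
  refine le_of_forall_pos_le_add fun ε' hε' => ?_
  obtain ⟨ε, hε, hεε⟩ : ∃ ε : ℝ, 0 < ε ∧ ε' = 2 * ε := ⟨ε' / 2, half_pos hε', by ring⟩
  obtain ⟨l1, ⟨y, hy0, hy1, hy2⟩, hl1⟩ := h.ex' x hs hε
  rw [hxr] at hl1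
  -- the second step
  have hstep : ∀ n, ∃ (z : ℕ → E) (l' μ : ℝ), WN z ∧ Tendsto (fun m => ‖z m‖) atTop (𝓝 t) ∧
      Tendsto (fun m => ‖x + y n + z m‖) atTop (𝓝 l') ∧
      Tendsto (fun m => ‖y n + z m‖) atTop (𝓝 μ) ∧ σ * F ‖x + y n‖ t - ε ≤ σ * l' := by
    intro n
    obtain ⟨l', ⟨z, hz0, hz1, hz2⟩, hl'⟩ := h.ex (x + y n) t ht ε hε
    obtain ⟨μ, φ, hφ, hμ⟩ := exists_lim hz0 hz1 (y n)
    exact ⟨fun m => z (φ m), l', μ, hz0.comp hφ, hz1.comp hφ.tendsto_atTop,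
      hz2.comp hφ.tendsto_atTop, hμ, hl'⟩
  choose z l' μ hz0 hz1 hz2 hz3 hl' using hstep
  have hsel : ∀ n, ∃ m, (∀ k ∈ Finset.range (n + 1), |g k (z n m)| < 1 / ((n : ℝ) + 1)) ∧
      |‖x + y n + z n m‖ - l' n| < 1 / ((n : ℝ) + 1) ∧
      |‖y n + z n m‖ - μ n| < 1 / ((n : ℝ) + 1) ∧ ‖z n m‖ < t + 1 := by
    intro n
    have hpos : 0 < 1 / ((n : ℝ) + 1) := by positivity
    have e1 : ∀ᶠ m in atTop, ∀ k ∈ Finset.range (n + 1), |g k (z n m)| < 1 / ((n : ℝ) + 1) := by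
      rw [Finset.eventually_all]
      intro k _
      have := (Metric.tendsto_nhds.1 (hz0 n (g k))) _ hpos
      simpa only [Real.dist_eq, sub_zero] using this
    have e2 : ∀ᶠ m in atTop, |‖x + y n + z n m‖ - l' n| < 1 / ((n : ℝ) + 1) := by
      have := (Metric.tendsto_nhds.1 (hz2 n)) _ hpos
      simpa only [Real.dist_eq] using this
    have e3 : ∀ᶠ m in atTop, |‖y n + z n m‖ - μ n| < 1 / ((n : ℝ) + 1) := by
      have := (Metric.tendsto_nhds.1 (hz3 n)) _ hpos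
      simpa only [Real.dist_eq] using this
    have e4 : ∀ᶠ m in atTop, ‖z n m‖ < t + 1 := (hz1 n).eventually_lt_const (by linarith)
    exact (e1.and (e2.and (e3.and e4))).exists
  choose m hm1 hm2 hm3 hm4 using hsel
  obtain ⟨C, hC⟩ := bdd_of_tendsto hy1
  obtain ⟨w, hw⟩ : ∃ w : ℕ → E, w = fun n => y n + z n (m n) := ⟨_, rfl⟩
  have hwb : ∀ n, ‖w n‖ ≤ C + (t + 1) := by
    intro n
    have h1 := hC n
    rw [abs_norm] at h1
    rw [hw]
    exact (norm_add_le _ _).trans (add_le_add h1 (hm4 n).le)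
  obtain ⟨a, φ, hφ, hlim⟩ := hW w _ hwb
  have hgz : ∀ k, Tendsto (fun n => g k (w n)) atTop (𝓝 0) := by
    intro k
    have h1 : Tendsto (fun n => g k (z n (m n))) atTop (𝓝 0) := by
      refine squeeze_zero_norm' ?_ one_div_tendsto
      filter_upwards [eventually_ge_atTop k] with n hn
      exact (hm1 n k (by rw [Finset.mem_range]; omega)).le
    have h2 := (hy0 (g k)).add h1
    rw [add_zero] at h2
    refine h2.congr fun n => ?_
    rw [hw]
    exact (map_add (g k) _ _).symm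
  have ha : a = 0 := by
    apply hg
    intro k
    exact tendsto_nhds_unique (hlim (g k)) ((hgz k).comp hφ.tendsto_atTop)
  have hwn : WN fun n => w (φ n) := by
    intro f
    have := hlim f
    rwa [ha, map_zero] at this
  -- further subsequences
  obtain ⟨lam, ψ, hψ, hlam⟩ := exists_sub (u := fun n => ‖w (φ n)‖) (C := C + (t + 1))
    (fun n => by rw [abs_norm]; exact hwb _)
  obtain ⟨l2, θ, hθ, hl2⟩ := exists_lim (hwn.comp hψ) hlam x
  have hρ : Tendsto (fun n => φ (ψ (θ n))) atTop atTop :=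
    hφ.tendsto_atTop.comp (hψ.tendsto_atTop.comp hθ.tendsto_atTop)
  have hL : Lim x lam l2 := ⟨fun n => w (φ (ψ (θ n))), (hwn.comp hψ).comp hθ,
    hlam.comp hθ.tendsto_atTop, hl2⟩
  have hlam' := hlam.comp hθ.tendsto_atTop
  -- the value of `l2`
  have hdiv := one_div_tendsto.comp hρ
  have hF1 : Tendsto (fun n => F ‖x + y n‖ t) atTop (𝓝 (F l1 t)) :=
    h.tendsto (fun n => norm_nonneg _) ht hy2
  have hF2 : Tendsto (fun n => F ‖y n‖ t) atTop (𝓝 (F s t)) :=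
    h.tendsto (fun n => norm_nonneg _) ht hy1
  have h1 : σ * F l1 t - ε ≤ σ * l2 := by
    have a1 := ((hF1.comp hρ).const_mul σ).sub_const ε
    have a2 := (hl2.const_mul σ).add hdiv
    rw [add_zero] at a2
    refine le_of_tendsto_of_tendsto' a1 a2 fun n => ?_
    simp only [Function.comp]
    have b1 := hl' (φ (ψ (θ n)))
    have b2 := hm2 (φ (ψ (θ n)))
    rw [← sg_abs h.sg, abs_lt] at b2
    have b3 : x + w (φ (ψ (θ n))) = x + y (φ (ψ (θ n))) + z (φ (ψ (θ n))) (m (φ (ψ (θ n)))) := by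
      rw [hw, add_assoc]
    rw [b3]
    linarith [b2.1]
  have h2 : σ * lam ≤ σ * F s t := by
    have a1 := (hlam'.const_mul σ).sub hdiv
    rw [sub_zero] at a1
    refine le_of_tendsto_of_tendsto' a1 ((hF2.comp hρ).const_mul σ) fun n => ?_
    simp only [Function.comp]
    have b1 : σ * μ (φ (ψ (θ n))) ≤ σ * F ‖y (φ (ψ (θ n)))‖ t :=
      h.le _ _ _ ⟨_, hz0 _, hz1 _, hz3 _⟩
    have b2 := hm3 (φ (ψ (θ n)))
    rw [← sg_abs h.sg, abs_lt] at b2
    have b3 : w (φ (ψ (θ n))) = y (φ (ψ (θ n))) + z (φ (ψ (θ n))) (m (φ (ψ (θ n)))) := by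
      rw [hw]
    rw [b3]
    linarith [b2.2]
  have hM : 0 < F s t := hs.trans_le (h.nonneg hs.le ht).1
  have h3 : σ * l2 ≤ σ * F r (F s t) := by
    have c1 := h.le _ _ _ hL
    rw [hxr] at c1
    rcases h.sg with h1' | h1'
    · rw [h1', one_mul, one_mul] at c1 h2 ⊢
      rcases hL.nonneg.eq_or_lt with h0 | h0
      · have c2 := hL.le_add
        rw [← h0, hxr] at c2
        have c4 := (h.nonneg hr hM).1
        linarith
      · exact c1.trans (h.mono hr h0 h2)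
    · rw [h1'] at c1 h2 ⊢
      have c2 : F s t ≤ lam := by linarith
      have c3 := h.mono hr hM c2
      linarith
  have h4 : |F l1 t - F (F r s) t| ≤ ε := by
    have d1 : 0 ≤ l1 := (norm_nonneg x).trans (Lim.norm_le ⟨y, hy0, hy1, hy2⟩)
    have d2 := h.lip d1 (hr.trans (h.nonneg hr hs).1) ht ht
    rw [sub_self, abs_zero, add_zero, abs_sub_comm l1] at d2
    exact d2.trans hl1
  rw [← sg_abs h.sg, abs_le] at h4
  rw [hεε]
  linarith [h4.1]

end Pool.Agent.N314.OP
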