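import Pool.Agent.N314.OP.Lim

/-!
# Separating sequences and weak sequential compactness
-/

set_option autoImplicit false

namespace Pool.Agent.N314.OP

open Filter Topology

variable {E : Type*} [NormedAddCommGroup E] [NormedSpace ℝ E]

/-- separable spaces have separating sequences of functionals -/
lemma sep_of_separable [TopologicalSpace.SeparableSpace E] : Sep E := by
  have hd := TopologicalSpace.denseRange_denseSeq E
  choose g hg1 hg2 using fun k : ℕ => exists_dual_vector'' ℝ (TopologicalSpace.denseSeq E k)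
  refine ⟨g, fun a ha => ?_⟩
  by_contra h0
  have hpos : 0 < ‖a‖ := norm_pos_iff.2 h0
  obtain ⟨k, hk⟩ := Metric.denseRange_iff.1 hd a (‖a‖ / 2) (by positivity)
  set d := TopologicalSpace.denseSeq E k with hdd
  rw [dist_eq_norm] at hk
  have h1 : ‖d‖ ≤ ‖a - d‖ := by
    have e1 : g k (d - a) = ‖d‖ := by
      rw [map_sub, ha, sub_zero]
      exact hg2 k
    calc ‖d‖ = g k (d - a) := e1.symm
      _ ≤ |g k (d - a)| := le_abs_self _
      _ = ‖g k (d - a)‖ := rfl
      _ ≤ ‖g k‖ * ‖d - a‖ := (g k).le_opNorm _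
      _ ≤ 1 * ‖d - a‖ := by gcongr; exact hg1 k
      _ = ‖a - d‖ := by rw [one_mul, norm_sub_rev]
  have h2 : ‖a‖ ≤ ‖a - d‖ + ‖d‖ := by
    have := norm_add_le (a - d) d
    rwa [sub_add_cancel] at this
  linarith

/-- weak limits along ultrafilters -/
def UW (E : Type*) [NormedAddCommGroup E] [NormedSpace ℝ E] : Prop :=
  ∀ (u : ℕ → E) (C : ℝ), (∀ n, ‖u n‖ ≤ C) → ∀ U : Ultrafilter ℕ, ∃ b : E,
    ∀ f : StrongDual ℝ E, Tendsto (fun n => f (u n)) U (𝓝 (f b))

/-- bounded real sequences converge along ultrafilters -/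
lemma real_ultra {v : ℕ → ℝ} {M : ℝ} (h : ∀ n, |v n| ≤ M) (U : Ultrafilter ℕ) :
    ∃ L, |L| ≤ M ∧ Tendsto v U (𝓝 L) := by
  have h1 : ((U.map v : Ultrafilter ℝ) : Filter ℝ) ≤ 𝓟 (Set.Icc (-M) M) := by
    rw [Ultrafilter.coe_map, le_principal_iff, mem_map]
    exact univ_mem' fun n => ⟨(abs_le.1 (h n)).1, (abs_le.1 (h n)).2⟩
  obtain ⟨L, hL, h2⟩ := (isCompact_Icc (a := -M) (b := M)).ultrafilter_le_nhds _ h1
  exact ⟨L, abs_le.2 ⟨hL.1, hL.2⟩, h2⟩

/-- the limit functional of a bounded sequence along an ultrafilter -/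
lemma exists_limit_functional {u : ℕ → E} {C : ℝ} (hC : ∀ n, ‖u n‖ ≤ C) (U : Ultrafilter ℕ) :
    ∃ L : StrongDual ℝ (StrongDual ℝ E), ∀ f : StrongDual ℝ E,
      Tendsto (fun n => f (u n)) U (𝓝 (L f)) := by
  have hb : ∀ (f : StrongDual ℝ E) (n : ℕ), |f (u n)| ≤ C * ‖f‖ := by
    intro f n
    calc |f (u n)| = ‖f (u n)‖ := rfl
      _ ≤ ‖f‖ * ‖u n‖ := f.le_opNorm _
      _ ≤ ‖f‖ * C := by gcongr; exact hC n
      _ = C * ‖f‖ := mul_comm _ _
  choose L hL1 hL2 using fun f : StrongDual ℝ E => real_ultra (hb f) U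
  let L' : StrongDual ℝ E →ₗ[ℝ] ℝ :=
    { toFun := L
      map_add' := by
        intro f g
        refine tendsto_nhds_unique (hL2 (f + g)) ?_
        exact (hL2 f).add (hL2 g)
      map_smul' := by
        intro c f
        refine tendsto_nhds_unique (hL2 (c • f)) ?_
        exact (hL2 f).const_mul c }
  exact ⟨L'.mkContinuous C (fun f => hL1 f), fun f => hL2 f⟩

/-- reflexive spaces -/
lemma uw_of_reflexive
    (hr : Function.Surjective (NormedSpace.inclusionInDoubleDual ℝ E)) : UW E := by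
  intro u C hC U
  obtain ⟨L, hL⟩ := exists_limit_functional hC U
  obtain ⟨b, hb⟩ := hr L
  refine ⟨b, fun f => ?_⟩
  have := hL f
  rw [← hb] at this
  simpa using this

/-- Hilbertian spaces are reflexive -/
lemma reflexive_of_hilbertian {H : Type*} [NormedAddCommGroup H] [InnerProductSpace ℝ H]
    [CompleteSpace H] (Φ : E ≃L[ℝ] H) :
    Function.Surjective (NormedSpace.inclusionInDoubleDual ℝ E) := by
  intro L
  -- the functional `k ↦ L (⟪k, Φ ·⟫)` on `H`
  let A : StrongDual ℝ H →L[ℝ] StrongDual ℝ E :=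
    (ContinuousLinearMap.compL ℝ E H ℝ).flip (Φ : E →L[ℝ] H)
  have hAv : ∀ (g : StrongDual ℝ H) (x : E), A g x = g (Φ x) := fun g x => rfl
  let B' : H →ₗ[ℝ] ℝ :=
    { toFun := fun k => L (A (InnerProductSpace.toDual ℝ H k))
      map_add' := fun k k' => by rw [map_add, map_add, map_add]
      map_smul' := fun c k => by
        rw [map_smulₛₗ, map_smul, map_smul]
        simp }
  let B : StrongDual ℝ H := B'.mkContinuous (‖L‖ * ‖A‖) (fun k => by
    calc ‖L (A (InnerProductSpace.toDual ℝ H k))‖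
        ≤ ‖L‖ * ‖A (InnerProductSpace.toDual ℝ H k)‖ := L.le_opNorm _
      _ ≤ ‖L‖ * (‖A‖ * ‖InnerProductSpace.toDual ℝ H k‖) := by
        gcongr
        exact A.le_opNorm _
      _ = ‖L‖ * ‖A‖ * ‖k‖ := by
        rw [(InnerProductSpace.toDual ℝ H).norm_map]; ring)
  have hB : ∀ k : H, B k = L (A (InnerProductSpace.toDual ℝ H k)) := fun k => rfl
  set b : H := (InnerProductSpace.toDual ℝ H).symm B with hb
  refine ⟨Φ.symm b, ?_⟩
  ext f
  rw [NormedSpace.dual_def]
  set k : H := (InnerProductSpace.toDual ℝ H).symm (f.comp (Φ.symm : H →L[ℝ] E)) with hk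
  have h1 : ∀ v : H, inner ℝ k v = f (Φ.symm v) := by
    intro v
    rw [hk, InnerProductSpace.toDual_symm_apply]
    rfl
  have h2 : A (InnerProductSpace.toDual ℝ H k) = f := by
    ext x
    rw [hAv, InnerProductSpace.toDual_apply_apply, h1, Φ.symm_apply_apply]
  have h3 : inner ℝ b k = B k := by
    rw [hb, InnerProductSpace.toDual_symm_apply]
  rw [← h1, real_inner_comm, h3, hB, h2]

/-- **weak sequential compactness** -/
lemma wsc_of_uw (hU : UW E) (hS : Sep E) : WSC E := by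
  obtain ⟨g, hg⟩ := hS
  intro u C hC
  -- a subsequence on which all the `g k` converge
  have hcpt : IsCompact (Set.pi Set.univ fun k : ℕ => Set.Icc (-(C * ‖g k‖)) (C * ‖g k‖)) :=
    isCompact_univ_pi fun k => isCompact_Icc
  have hb : ∀ (f : StrongDual ℝ E) (n : ℕ), |f (u n)| ≤ C * ‖f‖ := by
    intro f n
    calc |f (u n)| = ‖f (u n)‖ := rfl
      _ ≤ ‖f‖ * ‖u n‖ := f.le_opNorm _
      _ ≤ ‖f‖ * C := by gcongr; exact hC n
      _ = C * ‖f‖ := mul_comm _ _
  obtain ⟨l, -, φ, hφ, hl⟩ := hcpt.tendsto_subseq (x := fun n k => g k (u n)) (fun n k _ =>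
    ⟨(abs_le.1 (hb (g k) n)).1, (abs_le.1 (hb (g k) n)).2⟩)
  have hl' : ∀ k, Tendsto (fun n => g k (u (φ n))) atTop (𝓝 (l k)) := tendsto_pi_nhds.1 hl
  have hex : ∀ U : Ultrafilter ℕ, ∃ b : E,
      ∀ f : StrongDual ℝ E, Tendsto (fun n => f (u (φ n))) U (𝓝 (f b)) :=
    fun U => hU (fun n => u (φ n)) C (fun n => hC _) U
  choose b hb2 using hex
  have hgb : ∀ U : Ultrafilter ℕ, (U : Filter ℕ) ≤ atTop → ∀ k, g k (b U) = l k := by
    intro U hle k
    exact tendsto_nhds_unique (hb2 U (g k)) ((hl' k).mono_left hle)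
  let U₀ : Ultrafilter ℕ := Filter.hyperfilter ℕ
  have hU₀ : (U₀ : Filter ℕ) ≤ atTop := by
    rw [← Nat.cofinite_eq_atTop]
    exact Filter.hyperfilter_le_cofinite
  refine ⟨b U₀, φ, hφ, fun f => ?_⟩
  rw [tendsto_iff_ultrafilter]
  intro U hle
  have h1 : b U = b U₀ := by
    have h2 : b U - b U₀ = 0 := by
      apply hg
      intro k
      rw [map_sub, hgb U hle k, hgb U₀ hU₀ k, sub_self]
    exact sub_eq_zero.1 h2
  have := hb2 U f
  rw [h1] at this
  exact this

end Pool.Agent.N314.OP
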