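import Pool.Agent.N314.OP.Opial
import Pool.Agent.N314.OP.Fin
import Pool.Agent.N314.OP.Wsc

/-!
# Conditions in one direction, and their validity in Hilbert spaces
-/

set_option autoImplicit false

namespace Pool.Agent.N314.OP

open Filter Topology

variable {E : Type*} [NormedAddCommGroup E] [NormedSpace ℝ E]

/-- limits are attained along unit sequences, in any prescribed direction up to `ε` -/
lemma lim_dir (hA : AT E) {e : E} (he : ‖e‖ = 1) {x : E} {l : ℝ} (h : Lim x 1 l) {ε : ℝ}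
    (hε : 0 < ε) : ∃ (y : ℕ → E) (l' : ℝ), (∀ n, ‖y n‖ = 1) ∧ WN y ∧
      Tendsto (fun n => ‖‖x‖ • e + y n‖) atTop (𝓝 l') ∧ |l' - l| ≤ ε := by
  classical
  -- an isometry which almost carries `‖x‖ • e` to `x`
  obtain ⟨T, hT⟩ : ∃ T : E ≃ₗᵢ[ℝ] E, ‖T (‖x‖ • e) - x‖ ≤ ε := by
    rcases eq_or_ne x 0 with hx | hx
    · refine ⟨LinearIsometryEquiv.refl ℝ E, ?_⟩
      rw [hx, norm_zero, zero_smul, map_zero, sub_zero, norm_zero]
      exact hε.le
    · have hx0 : 0 < ‖x‖ := norm_pos_iff.2 hx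
      obtain ⟨T, hT⟩ := hA e (‖x‖⁻¹ • x) he (by
        rw [norm_smul, norm_inv, norm_norm, inv_mul_cancel₀ hx0.ne']) (ε / ‖x‖) (by positivity)
      refine ⟨T, ?_⟩
      have e1 : T (‖x‖ • e) - x = ‖x‖ • (T e - ‖x‖⁻¹ • x) := by
        rw [map_smul, smul_sub, smul_smul, mul_inv_cancel₀ hx0.ne', one_smul]
      rw [e1, norm_smul, norm_norm]
      calc ‖x‖ * ‖T e - ‖x‖⁻¹ • x‖ ≤ ‖x‖ * (ε / ‖x‖) := by gcongr
        _ = ε := by field_simp
  obtain ⟨y, h0, h1, h2⟩ := h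
  -- normalise
  set z : ℕ → E := fun n => if y n = 0 then e else ‖y n‖⁻¹ • y n with hz
  have hne : ∀ᶠ n in atTop, y n ≠ 0 := by
    filter_upwards [h1.eventually_const_lt (show (0 : ℝ) < 1 by norm_num)] with n hn
    exact norm_pos_iff.1 hn
  have hz1 : ∀ n, ‖z n‖ = 1 := by
    intro n
    simp only [hz]
    split_ifs with hc
    · exact he
    · rw [norm_smul, norm_inv, norm_norm, inv_mul_cancel₀ (norm_ne_zero_iff.2 hc)]
  have hzy : Tendsto (fun n => ‖z n - y n‖) atTop (𝓝 0) := by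
    have e1 : Tendsto (fun n => |1 - ‖y n‖|) atTop (𝓝 |1 - 1|) := (h1.const_sub 1).abs
    rw [sub_self, abs_zero] at e1
    refine e1.congr' ?_
    filter_upwards [hne] with n hn
    have hn0 : ‖y n‖ ≠ 0 := norm_ne_zero_iff.2 hn
    simp only [hz, if_neg hn]
    have e2 : ‖y n‖⁻¹ • y n - y n = (‖y n‖⁻¹ * (1 - ‖y n‖)) • y n := by
      rw [mul_sub, mul_one, inv_mul_cancel₀ hn0, sub_smul, one_smul]
    rw [e2, norm_smul, norm_mul, norm_inv, norm_norm, Real.norm_eq_abs]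
    field_simp
  have hzwn : WN z := by
    intro f
    have e1 : Tendsto (fun n => f (z n - y n)) atTop (𝓝 0) := by
      refine squeeze_zero_norm (fun n => f.le_opNorm _) ?_
      have := hzy.const_mul ‖f‖
      rwa [mul_zero] at this
    have e2 := e1.add (h0 f)
    rw [zero_add] at e2
    refine e2.congr fun n => ?_
    rw [map_sub]; ring
  have h2' : Tendsto (fun n => ‖x + z n‖) atTop (𝓝 l) := by
    have e1 : Tendsto (fun n => ‖x + z n‖ - ‖x + y n‖) atTop (𝓝 0) := by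
      refine squeeze_zero_norm (fun n => ?_) hzy
      rw [Real.norm_eq_abs]
      refine (abs_norm_sub_norm_le _ _).trans (le_of_eq ?_)
      congr 1
      abel
    have e2 := e1.add h2
    rw [zero_add] at e2
    exact e2.congr fun n => by ring
  -- pull back
  have k0 : WN fun n => T.symm (z n) :=
    hzwn.map (T.symm.toContinuousLinearEquiv : E →L[ℝ] E)
  have k1 : ∀ n, ‖T.symm (z n)‖ = 1 := fun n => by rw [T.symm.norm_map, hz1]
  have k1' : Tendsto (fun n => ‖T.symm (z n)‖) atTop (𝓝 1) :=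
    tendsto_const_nhds.congr fun n => (k1 n).symm
  obtain ⟨l', φ, hφ, h3⟩ := exists_lim k0 k1' (‖x‖ • e)
  refine ⟨fun n => T.symm (z (φ n)), l', fun n => k1 _, k0.comp hφ, h3, ?_⟩
  have h4 : Tendsto (fun n => |‖‖x‖ • e + T.symm (z (φ n))‖ - ‖x + z (φ n)‖|) atTop
      (𝓝 |l' - l|) := (h3.sub (h2'.comp hφ.tendsto_atTop)).abs
  refine le_of_tendsto' h4 fun n => ?_
  have e1 : ‖‖x‖ • e + T.symm (z (φ n))‖ = ‖T (‖x‖ • e) + z (φ n)‖ := by
    rw [← T.norm_map, map_add, T.apply_symm_apply]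
  rw [e1]
  refine (abs_norm_sub_norm_le _ _).trans ?_
  have e2 : T (‖x‖ • e) + z (φ n) - (x + z (φ n)) = T (‖x‖ • e) - x := by abel
  rw [e2]
  exact hT

/-- Opial's condition in one direction is enough -/
lemma opialL_of_dir (hA : AT E) {e : E} (he : ‖e‖ = 1)
    (h : ∀ y : ℕ → E, (∀ n, ‖y n‖ = 1) → WN y → ∀ t : ℝ, 0 ≤ t →
      1 ≤ liminf (fun n => ‖t • e + y n‖) atTop) : OpialL E := by
  intro x l hl
  refine le_of_forall_pos_le_add fun ε hε => ?_
  obtain ⟨y, l', h1, h2, h3, h4⟩ := lim_dir hA he hl hε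
  have h5 := h y h1 h2 ‖x‖ (norm_nonneg x)
  rw [h3.liminf_eq] at h5
  have := (abs_le.1 h4).2
  linarith

/-- two-sided estimates in one direction are enough -/
lemma TSL_of_dir (hA : AT E) {e : E} (he : ‖e‖ = 1) {p c C : ℝ}
    (h : ∀ y : ℕ → E, (∀ n, ‖y n‖ = 1) → WN y → ∀ t ∈ Set.Icc (0 : ℝ) 1,
      1 + c * t ^ p ≤ liminf (fun n => ‖t • e + y n‖) atTop ∧
      limsup (fun n => ‖t • e + y n‖) atTop ≤ 1 + C * t ^ p) : TSL E p c C := by
  intro x l hx hl
  constructor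
  · refine le_of_forall_pos_le_add fun ε hε => ?_
    obtain ⟨y, l', h1, h2, h3, h4⟩ := lim_dir hA he hl hε
    have h5 := (h y h1 h2 ‖x‖ ⟨norm_nonneg x, hx⟩).1
    rw [h3.liminf_eq] at h5
    have := (abs_le.1 h4).2
    linarith
  · refine le_of_forall_pos_le_add fun ε hε => ?_
    obtain ⟨y, l', h1, h2, h3, h4⟩ := lim_dir hA he hl hε
    have h5 := (h y h1 h2 ‖x‖ ⟨norm_nonneg x, hx⟩).2
    rw [h3.limsup_eq] at h5
    have := (abs_le.1 h4).1
    linarith

/-- compact operators map weakly null sequences to norm null ones -/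
lemma compact_null {K : E →L[ℝ] E} (hK : IsCompactOperator K) {y : ℕ → E}
    (h1 : ∀ n, ‖y n‖ = 1) (h0 : WN y) : Tendsto (fun n => K (y n)) atTop (𝓝 0) := by
  have hc := hK.isCompact_closure_image_closedBall (𝕜₁ := ℝ) (𝕜₂ := ℝ) (f := (K : E →ₗ[ℝ] E)) 1
  refine tendsto_of_subseq_tendsto fun ns hns => ?_
  obtain ⟨z, -, φ, hφ, hz⟩ := hc.tendsto_subseq (x := fun n => K (y (ns n))) (fun n =>
    subset_closure ⟨y (ns n), by rw [mem_closedBall_zero_iff, h1], rfl⟩)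
  refine ⟨φ, ?_⟩
  have hz0 : z = 0 := by
    obtain ⟨f, -, hf⟩ := exists_dual_vector'' ℝ z
    have e1 : Tendsto (fun n => f (K (y (ns (φ n))))) atTop (𝓝 (f z)) :=
      (f.continuous.tendsto z).comp hz
    have e2 : Tendsto (fun n => f (K (y (ns (φ n))))) atTop (𝓝 0) :=
      ((h0 (f.comp K)).comp hns).comp hφ.tendsto_atTop
    have e3 := tendsto_nhds_unique e1 e2
    rw [hf] at e3
    simpa using e3
  rw [hz0] at hz
  exact hz

/-- near-contractive compact perturbations of the identity give Opial's condition -/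
lemma opialL_of_compact (hA : AT E) {e : E} (he : ‖e‖ = 1)
    (h : ∀ ε : ℝ, 0 < ε → ∃ K : E →L[ℝ] E, IsCompactOperator K ∧ ‖e - K e‖ ≤ ε ∧
      ‖ContinuousLinearMap.id ℝ E - K‖ ≤ 1 + ε) : OpialL E := by
  intro x l hl
  have hl0 : 0 ≤ l := (norm_nonneg x).trans hl.norm_le
  have key : ∀ ε : ℝ, 0 < ε → 1 - ‖x‖ * ε ≤ (1 + ε) * (l + ε) := by
    intro ε hε
    obtain ⟨y, l', h1, h2, h3, h4⟩ := lim_dir hA he hl hε
    obtain ⟨K, hK1, hK2, hK3⟩ := h ε hε
    have e1 := compact_null hK1 h1 h2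
    have e2 : Tendsto (fun n => 1 - ‖K (y n)‖ - ‖x‖ * ε) atTop (𝓝 (1 - 0 - ‖x‖ * ε)) := by
      have := e1.norm
      rw [norm_zero] at this
      exact (this.const_sub 1).sub_const _
    have e3 : 1 - 0 - ‖x‖ * ε ≤ (1 + ε) * l' := by
      refine le_of_tendsto_of_tendsto' e2 (h3.const_mul (1 + ε)) fun n => ?_
      have f1 : ‖(ContinuousLinearMap.id ℝ E - K) (‖x‖ • e + y n)‖ ≤
          (1 + ε) * ‖‖x‖ • e + y n‖ := by
        refine (ContinuousLinearMap.le_opNorm _ _).trans ?_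
        gcongr
      have f2 : (ContinuousLinearMap.id ℝ E - K) (‖x‖ • e + y n) =
          y n - K (y n) + ‖x‖ • (e - K e) := by
        show ‖x‖ • e + y n - K (‖x‖ • e + y n) = _
        rw [map_add, map_smul, smul_sub]
        abel
      rw [f2] at f1
      have f3 : ‖y n‖ ≤ ‖y n - K (y n) + ‖x‖ • (e - K e)‖ + ‖K (y n)‖ + ‖‖x‖ • (e - K e)‖ := by
        have g1 : y n = (y n - K (y n) + ‖x‖ • (e - K e)) + K (y n) - ‖x‖ • (e - K e) := by
          abel
        have g2 := norm_sub_le ((y n - K (y n) + ‖x‖ • (e - K e)) + K (y n)) (‖x‖ • (e - K e))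
        rw [← g1] at g2
        have g3 := norm_add_le (y n - K (y n) + ‖x‖ • (e - K e)) (K (y n))
        linarith
      have f4 : ‖‖x‖ • (e - K e)‖ ≤ ‖x‖ * ε := by
        rw [norm_smul, norm_norm]
        gcongr
      rw [h1] at f3
      linarith
    have := (abs_le.1 h4).2
    have h5 : l' ≤ l + ε := by linarith
    have h6 : (1 + ε) * l' ≤ (1 + ε) * (l + ε) := by gcongr
    linarith
  -- let `ε → 0`
  have t1 : Tendsto (fun ε : ℝ => 1 - ‖x‖ * ε) (𝓝[>] 0) (𝓝 (1 - ‖x‖ * 0)) :=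
    ((continuous_const.sub (continuous_const.mul continuous_id)).tendsto 0).mono_left
      nhdsWithin_le_nhds
  have t2 : Tendsto (fun ε : ℝ => (1 + ε) * (l + ε)) (𝓝[>] 0) (𝓝 ((1 + 0) * (l + 0))) :=
    (((continuous_const.add continuous_id).mul
      (continuous_const.add continuous_id)).tendsto 0).mono_left nhdsWithin_le_nhds
  have := le_of_tendsto_of_tendsto t1 t2 (by
    filter_upwards [self_mem_nhdsWithin] with ε hε
    exact key ε hε)
  simpa using this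

/-! ### Hilbert spaces -/

section hilbert

variable {H : Type*} [NormedAddCommGroup H] [InnerProductSpace ℝ H]

/-- the asymptotic identity in Hilbert spaces -/
lemma hilbert_lim (Φ : E ≃ₗᵢ[ℝ] H) {y : ℕ → E} (h1 : ∀ n, ‖y n‖ = 1) (h0 : WN y) (x : E) :
    Tendsto (fun n => ‖x + y n‖) atTop (𝓝 (Real.sqrt (1 + ‖x‖ ^ 2))) := by
  have h2 : Tendsto (fun n => inner ℝ (Φ x) (Φ (y n))) atTop (𝓝 0) :=
    h0 ((innerSL ℝ (Φ x)).comp (Φ.toContinuousLinearEquiv : E →L[ℝ] H))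
  have h3 : ∀ n, ‖x + y n‖ = Real.sqrt (1 + ‖x‖ ^ 2 + 2 * inner ℝ (Φ x) (Φ (y n))) := by
    intro n
    have e1 := norm_add_sq_real (Φ x) (Φ (y n))
    rw [← map_add, Φ.norm_map, Φ.norm_map, Φ.norm_map, h1] at e1
    have e2 : 1 + ‖x‖ ^ 2 + 2 * inner ℝ (Φ x) (Φ (y n)) = ‖x + y n‖ ^ 2 := by
      rw [e1]; ring
    rw [e2, Real.sqrt_sq (norm_nonneg _)]
  have h4 : Tendsto (fun n => 1 + ‖x‖ ^ 2 + 2 * inner ℝ (Φ x) (Φ (y n))) atTop
      (𝓝 (1 + ‖x‖ ^ 2 + 2 * 0)) := (h2.const_mul 2).const_add _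
  rw [mul_zero, add_zero] at h4
  exact ((Real.continuous_sqrt.tendsto _).comp h4).congr fun n => (h3 n).symm

end hilbert

end Pool.Agent.N314.OP
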