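import Pool.Agent.N314.OP.Res

/-!
# Contractions which preserve the norms of weakly null sequences asymptotically
-/

set_option autoImplicit false

namespace Pool.Agent.N314.OP

open Filter Topology

variable {E : Type*} [NormedAddCommGroup E] [NormedSpace ℝ E]

/-- a contraction which is asymptotically isometric on weakly null sequences and not bounded
below gives Opial's condition -/
lemma opialL_of_ess (hA : AT E) {R : E →L[ℝ] E} (hR : ∀ x, ‖R x‖ ≤ ‖x‖)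
    (h1 : ∀ y : ℕ → E, (∀ n, ‖y n‖ = 1) → WN y → Tendsto (fun n => ‖R (y n)‖) atTop (𝓝 1))
    (h2 : ∀ c : ℝ, 0 < c → ∃ x, ‖R x‖ < c * ‖x‖) : OpialL E := by
  intro x l hl
  refine le_of_forall_pos_le_add fun ε hε => ?_
  obtain ⟨v, hv⟩ := h2 (ε / (2 * (‖x‖ + 1))) (by positivity)
  have hv0 : 0 < ‖v‖ := by
    rcases (norm_nonneg v).eq_or_lt with h | h
    · rw [← h, mul_zero] at hv
      exact absurd (norm_nonneg _) (not_le.2 hv)
    · exact h
  set e : E := ‖v‖⁻¹ • v with he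
  have he1 : ‖e‖ = 1 := by
    rw [he, norm_smul, norm_inv, norm_norm, inv_mul_cancel₀ hv0.ne']
  have hRe : ‖R e‖ ≤ ε / (2 * (‖x‖ + 1)) := by
    rw [he, map_smul, norm_smul, norm_inv, norm_norm, inv_mul_le_iff₀ hv0, mul_comm]
    exact hv.le
  obtain ⟨y, l', g1, g2, g3, g4⟩ := lim_dir hA he1 hl (half_pos hε)
  have k1 := h1 y g1 g2
  have k2 : Tendsto (fun n => ‖R (y n)‖ - ‖x‖ * (ε / (2 * (‖x‖ + 1)))) atTop
      (𝓝 (1 - ‖x‖ * (ε / (2 * (‖x‖ + 1))))) := k1.sub_const _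
  have k3 : 1 - ‖x‖ * (ε / (2 * (‖x‖ + 1))) ≤ l' := by
    refine le_of_tendsto_of_tendsto' k2 g3 fun n => ?_
    have e1 := hR (‖x‖ • e + y n)
    rw [map_add, map_smul] at e1
    have e2 : ‖R (y n)‖ ≤ ‖‖x‖ • R e + R (y n)‖ + ‖‖x‖ • R e‖ := by
      have := norm_sub_le (‖x‖ • R e + R (y n)) (‖x‖ • R e)
      rwa [add_sub_cancel_left] at this
    have e3 : ‖‖x‖ • R e‖ ≤ ‖x‖ * (ε / (2 * (‖x‖ + 1))) := by
      rw [norm_smul, norm_norm]
      gcongr
    linarith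
  have k4 : ‖x‖ * (ε / (2 * (‖x‖ + 1))) ≤ ε / 2 := by
    rw [mul_div_assoc', div_le_div_iff₀ (by positivity) two_pos]
    nlinarith [norm_nonneg x]
  have := (abs_le.1 g4).2
  linarith

/-- in a Hilbert space the projection onto a hyperplane preserves the norms of weakly null
sequences asymptotically -/
lemma hilbert_proj {H : Type*} [NormedAddCommGroup H] [InnerProductSpace ℝ H] (Ψ : E ≃ₗᵢ[ℝ] H)
    {e : E} (he : ‖e‖ = 1) : ∃ f : StrongDual ℝ E, f e = 1 ∧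
      (∀ x, ‖x - f x • e‖ ≤ ‖x‖) := by
  let f : StrongDual ℝ E := (innerSL ℝ (Ψ e)).comp (Ψ.toContinuousLinearEquiv : E →L[ℝ] H)
  have hf : ∀ x, f x = inner ℝ (Ψ e) (Ψ x) := fun x => rfl
  refine ⟨f, ?_, fun x => ?_⟩
  · rw [hf, real_inner_self_eq_norm_sq, Ψ.norm_map, he, one_pow]
  · have h3 : ‖x - f x • e‖ ^ 2 ≤ ‖x‖ ^ 2 := by
      rw [← Ψ.norm_map, map_sub, map_smul, norm_sub_sq_real, norm_smul, Ψ.norm_map,
        Ψ.norm_map, he, inner_smul_right, real_inner_comm, ← hf, Real.norm_eq_abs,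
        mul_one, sq_abs]
      nlinarith [sq_nonneg (f x)]
    have := Real.sqrt_le_sqrt h3
    rwa [Real.sqrt_sq (norm_nonneg _), Real.sqrt_sq (norm_nonneg _)] at this

end Pool.Agent.N314.OP
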