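import Pool.Agent.N314.OP.Conv
import Pool.Agent.N314.OP.RA

/-!
# Two-sided asymptotic estimates are exact
-/

set_option autoImplicit false

namespace Pool.Agent.N314.OP

open Filter Topology Set

variable {E : Type*} [NormedAddCommGroup E] [NormedSpace ℝ E]

/-- two-sided estimate for the limits at `t = 1` -/
def TSL (E : Type*) [NormedAddCommGroup E] [NormedSpace ℝ E] (p c C : ℝ) : Prop :=
  ∀ (x : E) (l : ℝ), ‖x‖ ≤ 1 → Lim x 1 l → 1 + c * ‖x‖ ^ p ≤ l ∧ l ≤ 1 + C * ‖x‖ ^ p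

/-- two-sided estimates with exponents close to `p` -/
def TSLe (E : Type*) [NormedAddCommGroup E] [NormedSpace ℝ E] (p : ℝ) : Prop :=
  ∀ η : ℝ, 0 < η → η < 1 → ∃ c C : ℝ, 0 < c ∧ ∀ (x : E) (l : ℝ), x ≠ 0 → ‖x‖ ≤ 1 → Lim x 1 l →
    1 + c * ‖x‖ ^ (p + η) ≤ l ∧ l ≤ 1 + C * ‖x‖ ^ (p - η)

lemma TSL.toTSLe {p c C : ℝ} (hc : 0 < c) (h : TSL E p c C) : TSLe E p := by
  intro η hη _
  refine ⟨c, |C|, hc, fun x l hx hx1 hl => ?_⟩
  have hx0 : 0 < ‖x‖ := norm_pos_iff.2 hx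
  obtain ⟨h1, h2⟩ := h x l hx1 hl
  have e1 : ‖x‖ ^ (p + η) ≤ ‖x‖ ^ p :=
    Real.rpow_le_rpow_of_exponent_ge hx0 hx1 (by linarith)
  have e2 : ‖x‖ ^ p ≤ ‖x‖ ^ (p - η) :=
    Real.rpow_le_rpow_of_exponent_ge hx0 hx1 (by linarith)
  have e3 : 0 ≤ ‖x‖ ^ p := Real.rpow_nonneg hx0.le p
  constructor
  · have : c * ‖x‖ ^ (p + η) ≤ c * ‖x‖ ^ p := by gcongr
    linarith
  · have e4 : C * ‖x‖ ^ p ≤ |C| * ‖x‖ ^ (p - η) := by
      calc C * ‖x‖ ^ p ≤ |C| * ‖x‖ ^ p := by gcongr; exact le_abs_self C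
        _ ≤ |C| * ‖x‖ ^ (p - η) := by gcongr
    linarith

variable {σ : ℝ} {F : ℝ → ℝ → ℝ} {p c C : ℝ}

lemma Ext.scale_eq [Nontrivial E] (h : Ext E σ F) {r M : ℝ} (hr : 0 ≤ r) (hM : 0 < M) :
    F r M = M * F (r / M) 1 := by
  have := h.smul (r := r / M) (t := 1) (s := M) (by positivity) one_pos hM
  rw [mul_div_cancel₀ _ hM.ne', mul_one] at this
  exact this

/-- the quotient of `F r 1 - 1` by `r ^ p` -/
noncomputable def psi (F : ℝ → ℝ → ℝ) (p r : ℝ) : ℝ := (F r 1 - 1) / r ^ p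

lemma psi_bd [Nontrivial E] (h : Ext E σ F) (hT : TSLe E p) (η : ℝ) (hη : 0 < η) (hη1 : η < 1) :
    ∃ c C : ℝ, 0 < c ∧ ∀ r : ℝ, 0 < r → r ≤ 1 →
      c * r ^ η ≤ psi F p r ∧ psi F p r ≤ C * r ^ (-η) := by
  obtain ⟨c, C, hc, hcC⟩ := hT η hη hη1
  refine ⟨c, C, hc, fun r hr hr1 => ?_⟩
  obtain ⟨e, he⟩ := exists_norm_eq E (zero_le_one (α := ℝ))
  have e1 : ‖r • e‖ = r := by rw [norm_smul, he, Real.norm_of_nonneg hr.le, mul_one]
  have hre : r • e ≠ 0 := by
    rw [← norm_pos_iff, e1]; exact hr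
  have key : 1 + c * r ^ (p + η) ≤ F r 1 ∧ F r 1 ≤ 1 + C * r ^ (p - η) := by
    constructor
    · refine le_of_forall_pos_le_add fun ε hε => ?_
      obtain ⟨l, hl, h1⟩ := h.ex' (r • e) one_pos hε
      have h2 := hcC _ _ hre (by rw [e1]; exact hr1) hl
      rw [e1] at h1 h2
      rw [abs_le] at h1
      linarith [h1.1, h2.1]
    · refine le_of_forall_pos_le_add fun ε hε => ?_
      obtain ⟨l, hl, h1⟩ := h.ex' (r • e) one_pos hε
      have h2 := hcC _ _ hre (by rw [e1]; exact hr1) hl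
      rw [e1] at h1 h2
      rw [abs_le] at h1
      linarith [h1.2, h2.2]
  have hrp : 0 < r ^ p := Real.rpow_pos_of_pos hr p
  unfold psi
  rw [le_div_iff₀ hrp, div_le_iff₀ hrp, mul_assoc, mul_assoc, ← Real.rpow_add hr,
    ← Real.rpow_add hr, add_comm η p, show -η + p = p - η by ring]
  constructor <;> linarith [key.1, key.2]

lemma psi_pos [Nontrivial E] (h : Ext E σ F) (hT : TSLe E p) {r : ℝ} (hr : 0 < r)
    (hr1 : r ≤ 1) : 0 < psi F p r := by
  obtain ⟨c, C, hc, h1⟩ := psi_bd h hT (1 / 2) (by norm_num) (by norm_num)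
  exact lt_of_lt_of_le (by positivity) (h1 r hr hr1).1

lemma psi_eq {r : ℝ} (hr : 0 < r) : F r 1 = 1 + psi F p r * r ^ p := by
  have hrp : 0 < r ^ p := Real.rpow_pos_of_pos hr p
  unfold psi
  rw [div_mul_cancel₀ _ hrp.ne']
  ring

lemma Ext.zero [Nontrivial E] (h : Ext E σ F) {t : ℝ} (ht : 0 < t) : F 0 t = t := by
  refine le_antisymm ?_ (by simpa using (h.nonneg le_rfl ht).2)
  refine le_of_forall_pos_le_add fun ε hε => ?_
  obtain ⟨l, hl, h1⟩ := h.ex' (0 : E) ht hε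
  have h2 := hl.le_add
  rw [norm_zero] at h1 h2
  rw [abs_le] at h1
  linarith [h1.2]

/-- the increment of `s ↦ F s t` from `s` to `F r s` -/
lemma Ext.incr [Nontrivial E] (hW : WSC E) (hS : Sep E) (h : Ext E σ F)
    (hT : TSLe E p) {s t r : ℝ} (hs : 0 < s) (ht : 0 < t) (hr : 0 < r) (hrs : r ≤ s)
    (hrM : r ≤ F s t) :
    s < F r s ∧ F r s - s ≤ r ∧
      σ * slope (fun s => F s t) s (F r s) ≤
        σ * ((s / F s t) ^ (p - 1) * (psi F p (1 / F s t * r) / psi F p (1 / s * r))) := by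
  have hM : 0 < F s t := hs.trans_le (h.nonneg hs.le ht).1
  set M := F s t with hMdef
  have hrs' : 0 < 1 / s * r := by positivity
  have hrM' : 0 < 1 / M * r := by positivity
  have hrs1 : 1 / s * r ≤ 1 := by rw [one_div_mul_eq_div, div_le_one hs]; exact hrs
  have hrM1 : 1 / M * r ≤ 1 := by rw [one_div_mul_eq_div, div_le_one hM]; exact hrM
  have hψs0 : 0 < psi F p (1 / s * r) := psi_pos h hT hrs' hrs1
  have e1 : F r s = s + s * (psi F p (1 / s * r) * (1 / s * r) ^ p) := by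
    rw [h.scale_eq hr.le hs, ← one_div_mul_eq_div s r, psi_eq (F := F) (p := p) hrs']
    ring
  have e2 : F r M = M + M * (psi F p (1 / M * r) * (1 / M * r) ^ p) := by
    rw [h.scale_eq hr.le hM, ← one_div_mul_eq_div M r, psi_eq (F := F) (p := p) hrM']
    ring
  have hps : 0 < (1 / s * r) ^ p := Real.rpow_pos_of_pos hrs' p
  have hpM : 0 < (1 / M * r) ^ p := Real.rpow_pos_of_pos hrM' p
  have hδ : 0 < s * (psi F p (1 / s * r) * (1 / s * r) ^ p) := by positivity
  refine ⟨by rw [e1]; linarith, ?_, ?_⟩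
  · have h1 := h.lip hr.le le_rfl hs hs
    rw [h.zero hs, sub_self, abs_zero, add_zero, sub_zero, abs_of_pos hr] at h1
    exact (le_abs_self _).trans h1
  · have hsup := h.super hW hS hr.le hs ht
    rw [← hMdef, e2] at hsup
    have e3 : F r s - s = s * (psi F p (1 / s * r) * (1 / s * r) ^ p) := by rw [e1]; ring
    rw [slope_def_field, ← hMdef, e3]
    have e4 : (s / M) ^ (p - 1) * (psi F p (1 / M * r) / psi F p (1 / s * r))
        = M * (psi F p (1 / M * r) * (1 / M * r) ^ p) /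
          (s * (psi F p (1 / s * r) * (1 / s * r) ^ p)) := by
      have a1 : (1 / M * r) ^ p = (s / M) ^ p * (1 / s * r) ^ p := by
        rw [← Real.mul_rpow (by positivity) (by positivity)]
        congr 1
        field_simp
      have a2 : (s / M) ^ p = (s / M) ^ (p - 1) * (s / M) := by
        rw [Real.rpow_sub_one (by positivity), div_mul_cancel₀ _ (by positivity)]
      rw [a1, a2]
      field_simp
    rw [e4, mul_div_assoc', mul_div_assoc']
    refine div_le_div_of_nonneg_right ?_ hδ.le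
    linarith

lemma frequently_of {P : ℝ → Prop} {s : ℝ} (h : ∀ u, s < u → ∃ z, s < z ∧ z < u ∧ P z) :
    ∃ᶠ z in 𝓝[>] s, P z := by
  rw [Filter.frequently_iff]
  intro U hU
  obtain ⟨u, hu, hsub⟩ := (mem_nhdsGT_iff_exists_Ioo_subset).1 hU
  obtain ⟨z, h1, h2, h3⟩ := h u hu
  exact ⟨z, hsub ⟨h1, h2⟩, h3⟩

lemma Ext.cont [Nontrivial E] (h : Ext E σ F) {t : ℝ} (ht : 0 < t) :
    ContinuousOn (fun s => F s t) (Ici 0) := by
  have : LipschitzOnWith 1 (fun s => F s t) (Ici 0) := by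
    refine LipschitzOnWith.of_dist_le_mul fun a ha b hb => ?_
    rw [Real.dist_eq, Real.dist_eq]
    have := h.lip (r := a) (r' := b) ha hb ht ht
    simpa using this
  exact this.continuousOn

/-- upper bound for the largest limit -/
theorem Ext.le_lp [Nontrivial E] (hW : WSC E) (hS : Sep E) (h : Ext E 1 F) (hp : 1 ≤ p)
    (hT : TSLe E p) {s t : ℝ} (hs : 0 ≤ s) (ht : 0 < t) :
    F s t ^ p ≤ s ^ p + t ^ p := by
  rw [add_comm]
  refine upper (g := fun s => F s t) hp ht (h.cont ht) (fun s hs => ?_) (fun s hs => ?_)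
    (fun s hs η hη => ?_) s hs
  · rcases hs.eq_or_lt with h0 | h0
    · rw [← h0]
      show 0 < F 0 t
      rw [h.zero ht]; exact ht
    · exact h0.trans_le (h.nonneg hs ht).1
  · have h1 := h.lip hs le_rfl ht ht
    rw [h.zero ht, sub_self, abs_zero, add_zero, sub_zero, abs_of_nonneg hs] at h1
    have := (abs_le.1 h1).2
    show F s t ≤ t + s
    linarith
  · have hM : 0 < F s t := hs.trans_le (h.nonneg hs.le ht).1
    refine frequently_of fun u hu => ?_
    obtain ⟨r, hr0, hr1, hr2⟩ := sel (ψ := psi F p) (psi_bd (p := p) h hT) (a := 1 / F s t) (b := 1 / s)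
      (by positivity) (by positivity) (half_pos hη)
      (δ := min (min s (F s t)) (u - s)) (by
        have : 0 < u - s := by linarith
        positivity)
    rw [lt_min_iff, lt_min_iff] at hr1
    obtain ⟨⟨hr3, hr4⟩, hr5⟩ := hr1
    obtain ⟨h1, h2, h3⟩ := h.incr hW hS hT hs ht hr0 hr3.le hr4.le
    refine ⟨F r s, h1, by linarith, ?_⟩
    rw [one_mul, one_mul] at h3
    refine h3.trans_lt ?_
    have hs1 : 0 < psi F p (1 / s * r) := by
      have hrs1 : 1 / s * r ≤ 1 := by rw [one_div_mul_eq_div, div_le_one hs]; exact hr3.le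
      exact psi_pos (p := p) h hT (by positivity) hrs1
    have h5 : psi F p (1 / F s t * r) / psi F p (1 / s * r) ≤ 1 + η / 2 := by
      rw [div_le_iff₀ hs1]; exact hr2
    have h6 : 0 < (s / F s t) ^ (p - 1) := Real.rpow_pos_of_pos (by positivity) _
    calc (s / F s t) ^ (p - 1) * (psi F p (1 / F s t * r) / psi F p (1 / s * r))
        ≤ (s / F s t) ^ (p - 1) * (1 + η / 2) := by gcongr
      _ < (1 + η) * (s / F s t) ^ (p - 1) := by nlinarith

/-- lower bound for the smallest limit -/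
theorem Ext.ge_lp [Nontrivial E] (hW : WSC E) (hS : Sep E) (h : Ext E (-1) F) (hp : 1 ≤ p)
    (hT : TSLe E p) {s t : ℝ} (hs : 0 ≤ s) (ht : 0 < t) :
    s ^ p + t ^ p ≤ F s t ^ p := by
  rw [add_comm]
  refine lower (g := fun s => F s t) hp ht (h.cont ht) (fun s hs => ?_) (fun s hs => ?_)
    (fun s hs η hη => ?_) s hs
  · rcases hs.eq_or_lt with h0 | h0
    · rw [← h0]
      show 0 < F 0 t
      rw [h.zero ht]; exact ht
    · exact h0.trans_le (h.nonneg hs ht).1
  · exact (h.nonneg hs ht).2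
  · have hM : 0 < F s t := hs.trans_le (h.nonneg hs.le ht).1
    refine frequently_of fun u hu => ?_
    obtain ⟨r, hr0, hr1, hr2⟩ := sel (ψ := psi F p) (psi_bd (p := p) h hT) (a := 1 / s) (b := 1 / F s t)
      (by positivity) (by positivity) (half_pos hη)
      (δ := min (min s (F s t)) (u - s)) (by
        have : 0 < u - s := by linarith
        positivity)
    rw [lt_min_iff, lt_min_iff] at hr1
    obtain ⟨⟨hr3, hr4⟩, hr5⟩ := hr1
    obtain ⟨h1, h2, h3⟩ := h.incr hW hS hT hs ht hr0 hr3.le hr4.le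
    refine ⟨F r s, h1, by linarith, ?_⟩
    have hs1 : 0 < psi F p (1 / s * r) := by
      have hrs1 : 1 / s * r ≤ 1 := by rw [one_div_mul_eq_div, div_le_one hs]; exact hr3.le
      exact psi_pos (p := p) h hT (by positivity) hrs1
    have hη2 : 0 < 1 + η / 2 := by positivity
    have h5 : 1 / (1 + η / 2) ≤ psi F p (1 / F s t * r) / psi F p (1 / s * r) := by
      rw [div_le_div_iff₀ hη2 hs1]
      linarith
    have h6 : 0 < (s / F s t) ^ (p - 1) := Real.rpow_pos_of_pos (by positivity) _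
    have h7 : 1 - η < 1 / (1 + η / 2) := by
      rw [lt_div_iff₀ hη2]
      nlinarith
    have h8 : (1 - η) * (s / F s t) ^ (p - 1) <
        (s / F s t) ^ (p - 1) * (psi F p (1 / F s t * r) / psi F p (1 / s * r)) := by
      rw [mul_comm]
      exact mul_lt_mul_of_pos_left (h7.trans_le h5) h6
    linarith

/-- **Two-sided estimates are exact.** -/
theorem exact_lp (hA : AT E) (hW : WSC E) (hS : Sep E) (hinf : ¬ FiniteDimensional ℝ E)
    (hp : 1 ≤ p) (hT : TSLe E p) {x : E} {t l : ℝ} (ht : 0 < t)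
    (hl : Lim x t l) : l ^ p = ‖x‖ ^ p + t ^ p := by
  have hnt : Nontrivial E := by
    by_contra h
    rw [not_nontrivial_iff_subsingleton] at h
    exact hinf inferInstance
  obtain ⟨F, hF⟩ := exists_ext hA hW hinf (Or.inl rfl : (1 : ℝ) = 1 ∨ (1 : ℝ) = -1)
  obtain ⟨F', hF'⟩ := exists_ext hA hW hinf (Or.inr rfl : (-1 : ℝ) = 1 ∨ (-1 : ℝ) = -1)
  have hl0 : 0 ≤ l := (norm_nonneg x).trans hl.norm_le
  have h1 := hF.le_lp hW hS hp hT (norm_nonneg x) ht
  have h2 := hF'.ge_lp hW hS hp hT (norm_nonneg x) ht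
  have h3 := hF.le _ _ _ hl
  have h4 := hF'.le _ _ _ hl
  rw [one_mul, one_mul] at h3
  have h5 : F' ‖x‖ t ≤ l := by linarith
  have h6 : 0 ≤ F' ‖x‖ t := (norm_nonneg x).trans (hF'.nonneg (norm_nonneg x) ht).1
  apply le_antisymm
  · exact (Real.rpow_le_rpow hl0 h3 (by linarith)).trans h1
  · exact h2.trans (Real.rpow_le_rpow h6 h5 (by linarith))

end Pool.Agent.N314.OP
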