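import Pool.Agent.N314.OP.Lim

/-!
# The extremal limits and their super-associativity
-/

set_option autoImplicit false

namespace Pool.Agent.N314.OP

open Filter Topology

variable {E : Type*} [NormedAddCommGroup E] [NormedSpace ℝ E]

/-- `F (‖x‖, t)` is the largest (`σ = 1`) or smallest (`σ = -1`) limit -/
structure Ext (E : Type*) [NormedAddCommGroup E] [NormedSpace ℝ E] (σ : ℝ) (F : ℝ → ℝ → ℝ) :
    Prop where
  sg : σ = 1 ∨ σ = -1
  le : ∀ (x : E) (t l : ℝ), Lim x t l → σ * l ≤ σ * F ‖x‖ t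
  ex : ∀ (x : E) (t : ℝ), 0 < t → ∀ ε : ℝ, 0 < ε → ∃ l, Lim x t l ∧ σ * F ‖x‖ t - ε ≤ σ * l

lemma sg_sq {σ : ℝ} (h : σ = 1 ∨ σ = -1) : σ * σ = 1 := by
  rcases h with rfl | rfl <;> norm_num

lemma sg_abs {σ : ℝ} (h : σ = 1 ∨ σ = -1) (a b : ℝ) : |σ * a - σ * b| = |a - b| := by
  rcases h with rfl | rfl
  · simp
  · rw [← abs_neg]
    congr 1
    ring

lemma sg_le {σ : ℝ} (h : σ = 1 ∨ σ = -1) (a : ℝ) : σ * a ≤ |a| := by
  rcases h with rfl | rfl
  · rw [one_mul]; exact le_abs_self a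
  · rw [neg_one_mul]; exact neg_le_abs a

/-- moving a limit to a point of the same norm -/
lemma Lim.move (hA : AT E) {x : E} {t l : ℝ} (h : Lim x t l) (ht : 0 < t) {x' : E}
    (hx : ‖x'‖ = ‖x‖) {ε : ℝ} (hε : 0 < ε) : ∃ l', Lim x' t l' ∧ |l' - l| ≤ ε := by
  rcases eq_or_ne x 0 with rfl | hx0
  · rw [norm_zero, norm_eq_zero] at hx
    exact ⟨l, by rw [hx]; exact h, by simpa using hε.le⟩
  · have hn : 0 < ‖x‖ := norm_pos_iff.2 hx0
    obtain ⟨T, hT⟩ := hA (‖x‖⁻¹ • x) (‖x‖⁻¹ • x')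
      (by rw [norm_smul, norm_inv, norm_norm, inv_mul_cancel₀ hn.ne'])
      (by rw [norm_smul, norm_inv, norm_norm, hx, inv_mul_cancel₀ hn.ne']) (ε / ‖x‖)
      (by positivity)
    have h1 : ‖x' - T x‖ ≤ ε := by
      have e1 : x' - T x = -(‖x‖ • (T (‖x‖⁻¹ • x) - ‖x‖⁻¹ • x')) := by
        rw [map_smul, smul_sub, smul_smul, smul_smul, mul_inv_cancel₀ hn.ne', one_smul,
          one_smul]
        abel
      rw [e1, norm_neg, norm_smul, norm_norm]
      calc ‖x‖ * ‖T (‖x‖⁻¹ • x) - ‖x‖⁻¹ • x'‖ ≤ ‖x‖ * (ε / ‖x‖) := by gcongr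
        _ = ε := by field_simp
    obtain ⟨l', hl', hd⟩ := (h.map T).perturb ht x' t ht.le
    refine ⟨l', hl', hd.trans ?_⟩
    rw [sub_self, abs_zero, add_zero]
    exact h1

lemma exists_ext (hA : AT E) (hW : WSC E) (hinf : ¬ FiniteDimensional ℝ E) {σ : ℝ}
    (hσ : σ = 1 ∨ σ = -1) : ∃ F, Ext E σ F := by
  have hnt : Nontrivial E := by
    by_contra h
    rw [not_nontrivial_iff_subsingleton] at h
    exact hinf inferInstance
  let S : ℝ → ℝ → Set ℝ := fun r t => {a | ∃ (x : E) (l : ℝ), ‖x‖ = r ∧ Lim x t l ∧ a = σ * l}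
  have hb : ∀ r t, BddAbove (S r t) := by
    intro r t
    refine ⟨r + t, ?_⟩
    rintro _ ⟨x, l, rfl, hl, rfl⟩
    refine (sg_le hσ l).trans ?_
    rw [abs_of_nonneg ((norm_nonneg x).trans hl.norm_le)]
    exact hl.le_add
  refine ⟨fun r t => σ * sSup (S r t), hσ, fun x t l hl => ?_, fun x t ht ε hε => ?_⟩
  · rw [← mul_assoc, sg_sq hσ, one_mul]
    exact le_csSup (hb _ _) ⟨x, l, rfl, hl, rfl⟩
  · have hne : (S ‖x‖ t).Nonempty := by
      obtain ⟨l, hl⟩ := exists_Lim hinf hW x ht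
      exact ⟨_, x, l, rfl, hl, rfl⟩
    obtain ⟨_, ⟨x', l, hx', hl, rfl⟩, hlt⟩ := exists_lt_of_lt_csSup hne
      (show sSup (S ‖x‖ t) - ε / 2 < sSup (S ‖x‖ t) by linarith)
    obtain ⟨l', hl', hd⟩ := hl.move hA ht hx'.symm (half_pos hε)
    refine ⟨l', hl', ?_⟩
    rw [← mul_assoc, sg_sq hσ, one_mul]
    rw [← sg_abs hσ, abs_le] at hd
    linarith [hd.1]

section

variable {σ : ℝ} {F : ℝ → ℝ → ℝ}

/-- two-sided form of `ex` -/
lemma Ext.ex' (h : Ext E σ F) (x : E) {t : ℝ} (ht : 0 < t) {ε : ℝ} (hε : 0 < ε) :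
    ∃ l, Lim x t l ∧ |F ‖x‖ t - l| ≤ ε := by
  obtain ⟨l, hl, h1⟩ := h.ex x t ht ε hε
  refine ⟨l, hl, ?_⟩
  have h2 := h.le x t l hl
  rw [← sg_abs h.sg, abs_le]
  constructor <;> linarith

lemma Ext.lip [Nontrivial E] (h : Ext E σ F) {r r' t t' : ℝ} (hr : 0 ≤ r) (hr' : 0 ≤ r')
    (ht : 0 < t) (ht' : 0 < t') : |F r t - F r' t'| ≤ |r - r'| + |t - t'| := by
  obtain ⟨e, he⟩ := exists_norm_eq E (zero_le_one (α := ℝ))
  have key : ∀ r r' t t' : ℝ, 0 ≤ r → 0 ≤ r' → 0 < t → 0 < t' →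
      σ * F r t ≤ σ * F r' t' + (|r - r'| + |t - t'|) := by
    intro r r' t t' hr hr' ht ht'
    have e1 : ‖r • e‖ = r := by rw [norm_smul, he, Real.norm_of_nonneg hr, mul_one]
    have e2 : ‖r' • e‖ = r' := by rw [norm_smul, he, Real.norm_of_nonneg hr', mul_one]
    refine le_of_forall_pos_le_add fun ε hε => ?_
    obtain ⟨l, hl, h1⟩ := h.ex (r • e) t ht ε hε
    obtain ⟨l', hl', h2⟩ := hl.perturb ht (r' • e) t' ht'.le
    have h3 := h.le _ _ _ hl'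
    rw [e1] at h1
    rw [e2] at h3
    rw [← sub_smul, norm_smul, he, mul_one, Real.norm_eq_abs, abs_sub_comm r' r,
      abs_sub_comm t' t, ← sg_abs h.sg, abs_le] at h2
    linarith [h2.1]
  rw [← sg_abs h.sg, abs_le]
  have h1 := key r r' t t' hr hr' ht ht'
  have h2 := key r' r t' t hr' hr ht' ht
  rw [abs_sub_comm r' r, abs_sub_comm t' t] at h2
  constructor <;> linarith

lemma Ext.smul [Nontrivial E] (h : Ext E σ F) {r t s : ℝ} (hr : 0 ≤ r) (ht : 0 < t)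
    (hs : 0 < s) : F (s * r) (s * t) = s * F r t := by
  obtain ⟨e, he⟩ := exists_norm_eq E (zero_le_one (α := ℝ))
  have key : ∀ r t s : ℝ, 0 ≤ r → 0 < t → 0 < s → s * (σ * F r t) ≤ σ * F (s * r) (s * t) := by
    intro r t s hr ht hs
    have e1 : ‖r • e‖ = r := by rw [norm_smul, he, Real.norm_of_nonneg hr, mul_one]
    refine le_of_forall_pos_le_add fun ε hε => ?_
    obtain ⟨l, hl, h1⟩ := h.ex (r • e) t ht (ε / s) (by positivity)
    have h3 := h.le _ _ _ (hl.smul hs)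
    rw [norm_smul, e1, Real.norm_of_nonneg hs.le] at h3
    rw [e1] at h1
    have h4 : s * (σ * F r t - ε / s) ≤ s * (σ * l) := by gcongr
    have h5 : s * (ε / s) = ε := by field_simp
    nlinarith
  have h1 := key r t s hr ht hs
  have h2 := key (s * r) (s * t) s⁻¹ (by positivity) (by positivity) (by positivity)
  rw [inv_mul_cancel_left₀ hs.ne', inv_mul_cancel_left₀ hs.ne'] at h2
  have h3 : s * (s⁻¹ * (σ * F (s * r) (s * t))) ≤ s * (σ * F r t) := by gcongr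
  rw [mul_inv_cancel_left₀ hs.ne'] at h3
  have h4 : σ * (σ * F (s * r) (s * t)) = σ * (σ * (s * F r t)) := by
    congr 1
    linarith
  rwa [← mul_assoc, ← mul_assoc, sg_sq h.sg, one_mul, one_mul] at h4

lemma Ext.mono [Nontrivial E] (h : Ext E σ F) {r t t' : ℝ} (hr : 0 ≤ r) (ht : 0 < t)
    (htt : t ≤ t') : F r t ≤ F r t' := by
  obtain ⟨e, he⟩ := exists_norm_eq E (zero_le_one (α := ℝ))
  have e1 : ‖r • e‖ = r := by rw [norm_smul, he, Real.norm_of_nonneg hr, mul_one]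
  refine le_of_forall_pos_le_add fun ε hε => ?_
  rcases h.sg with rfl | rfl
  · obtain ⟨l, hl, h1⟩ := h.ex (r • e) t ht ε hε
    obtain ⟨l', hl', h2⟩ := hl.up ht htt
    have h3 := h.le _ _ _ hl'
    rw [e1] at h1 h3
    linarith
  · obtain ⟨l', hl', h1⟩ := h.ex (r • e) t' (ht.trans_le htt) ε hε
    obtain ⟨l, hl, h2⟩ := hl'.down ht htt
    have h3 := h.le _ _ _ hl
    rw [e1] at h1 h3
    linarith

lemma Ext.nonneg [Nontrivial E] (h : Ext E σ F) {r t : ℝ} (hr : 0 ≤ r) (ht : 0 < t) :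
    r ≤ F r t ∧ t - r ≤ F r t := by
  obtain ⟨e, he⟩ := exists_norm_eq E (zero_le_one (α := ℝ))
  have e1 : ‖r • e‖ = r := by rw [norm_smul, he, Real.norm_of_nonneg hr, mul_one]
  constructor
  · refine le_of_forall_pos_le_add fun ε hε => ?_
    obtain ⟨l, hl, h1⟩ := h.ex' (r • e) ht hε
    have h2 := hl.norm_le
    rw [e1] at h1 h2
    rw [abs_le] at h1
    linarith [h1.1]
  · refine le_of_forall_pos_le_add fun ε hε => ?_
    obtain ⟨l, hl, h1⟩ := h.ex' (r • e) ht hε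
    have h2 := hl.ge_sub
    rw [e1] at h1 h2
    rw [abs_le] at h1
    linarith [h1.1]

end

end Pool.Agent.N314.OP
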