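import Pool.Agent.N314.OP.Lim

/-!
# Convexity and smoothness of power type pass to almost transitive norms

If a space with dense isometry orbits on the sphere is isomorphic to a `q`-uniformly convex
(`p`-uniformly smooth) space then its own norm is `q`-uniformly convex (`p`-uniformly smooth).
-/

set_option autoImplicit false

namespace Pool.Agent.N314.OP.Mod

open Set Pool.Agent.N314.OP

/-- uniform convexity of power type `q` -/
def UCq (F : Type*) [NormedAddCommGroup F] [NormedSpace ℝ F] (q c : ℝ) : Prop :=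
  ∀ x w : F, c * ‖w‖ ^ q ≤ ‖x + w‖ ^ q + ‖x - w‖ ^ q - 2 * ‖x‖ ^ q

/-- uniform smoothness of power type `p` -/
def USp (F : Type*) [NormedAddCommGroup F] [NormedSpace ℝ F] (p K : ℝ) : Prop :=
  ∀ x w : F, ‖x‖ = 1 → ‖x + w‖ + ‖x - w‖ ≤ 2 + K * ‖w‖ ^ p

variable {E : Type*} [NormedAddCommGroup E] [NormedSpace ℝ E]
variable {H : Type*} [NormedAddCommGroup H] [NormedSpace ℝ H]

/-- the supremum of the norms over the isometry group -/
noncomputable def supN (Φ : E ≃L[ℝ] H) (x : E) : ℝ := ⨆ T : E ≃ₗᵢ[ℝ] E, ‖Φ (T x)‖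

lemma supN_bdd (Φ : E ≃L[ℝ] H) (x : E) :
    BddAbove (range fun T : E ≃ₗᵢ[ℝ] E => ‖Φ (T x)‖) := by
  refine ⟨‖(Φ : E →L[ℝ] H)‖ * ‖x‖, ?_⟩
  rintro _ ⟨T, rfl⟩
  have h := (Φ : E →L[ℝ] H).le_opNorm (T x)
  rw [T.norm_map] at h
  exact h

lemma le_supN (Φ : E ≃L[ℝ] H) (x : E) (T : E ≃ₗᵢ[ℝ] E) : ‖Φ (T x)‖ ≤ supN Φ x :=
  le_ciSup (supN_bdd Φ x) T

lemma supN_map (Φ : E ≃L[ℝ] H) (S : E ≃ₗᵢ[ℝ] E) (x : E) : supN Φ (S x) = supN Φ x := by
  have h : ∀ (S : E ≃ₗᵢ[ℝ] E) (x : E), supN Φ (S x) ≤ supN Φ x := by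
    intro S x
    refine ciSup_le fun T => ?_
    exact le_supN Φ x (S.trans T)
  refine le_antisymm (h S x) ?_
  have := h S.symm (S x)
  rwa [S.symm_apply_apply] at this

lemma supN_smul (Φ : E ≃L[ℝ] H) {r : ℝ} (hr : 0 ≤ r) (x : E) : supN Φ (r • x) = r * supN Φ x := by
  unfold supN
  rw [Real.mul_iSup_of_nonneg hr]
  congr 1
  funext T
  rw [map_smul, map_smul, norm_smul, Real.norm_of_nonneg hr]

lemma supN_lip (Φ : E ≃L[ℝ] H) (x y : E) :
    supN Φ x ≤ supN Φ y + ‖(Φ : E →L[ℝ] H)‖ * ‖x - y‖ := by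
  refine ciSup_le fun T => ?_
  have h1 : Φ (T x) = Φ (T y) + Φ (T (x - y)) := by rw [← map_add, ← map_add]; congr 2; abel
  rw [h1]
  refine (norm_add_le _ _).trans (add_le_add (le_supN Φ y T) ?_)
  have h := (Φ : E →L[ℝ] H).le_opNorm (T (x - y))
  rw [T.norm_map] at h
  exact h

/-- by almost transitivity the supremum is a multiple of the norm -/
lemma supN_eq (hG : AT E)
    (Φ : E ≃L[ℝ] H) {u : E} (hu : ‖u‖ = 1) (x : E) : supN Φ x = supN Φ u * ‖x‖ := by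
  rcases eq_or_ne x 0 with rfl | hx
  · rw [norm_zero, mul_zero]
    unfold supN
    simp
  · have hx0 : 0 < ‖x‖ := norm_pos_iff.2 hx
    obtain ⟨x1, hx1⟩ : ∃ x1, x1 = ‖x‖⁻¹ • x := ⟨_, rfl⟩
    have hn1 : ‖x1‖ = 1 := by
      rw [hx1, norm_smul, norm_inv, norm_norm, inv_mul_cancel₀ hx0.ne']
    have h1 : x = ‖x‖ • x1 := by rw [hx1, smul_smul, mul_inv_cancel₀ hx0.ne', one_smul]
    have key : ∀ ε : ℝ, 0 < ε → |supN Φ x1 - supN Φ u| ≤ ‖(Φ : E →L[ℝ] H)‖ * ε := by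
      intro ε hε
      obtain ⟨S, hS⟩ := hG u x1 hu hn1 ε hε
      have h2 := supN_lip Φ x1 (S u)
      have h3 := supN_lip Φ (S u) x1
      rw [supN_map] at h2 h3
      rw [norm_sub_rev] at h2
      have h4 : ‖(Φ : E →L[ℝ] H)‖ * ‖S u - x1‖ ≤ ‖(Φ : E →L[ℝ] H)‖ * ε := by gcongr
      rw [abs_le]
      constructor <;> linarith
    have h2 : supN Φ x1 = supN Φ u := by
      rw [← sub_eq_zero, ← abs_nonpos_iff]
      refine le_of_forall_pos_le_add fun ε hε => ?_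
      rw [zero_add]
      refine (key (ε / (‖(Φ : E →L[ℝ] H)‖ + 1)) (by positivity)).trans ?_
      rw [mul_div_assoc', div_le_iff₀ (by positivity)]
      nlinarith [norm_nonneg (Φ : E →L[ℝ] H)]
    calc supN Φ x = supN Φ (‖x‖ • x1) := by rw [← h1]
      _ = supN Φ u * ‖x‖ := by rw [supN_smul Φ hx0.le, h2, mul_comm]

/-- **convexity of power type** -/
theorem convex_AT (hG : AT E) (Φ : E ≃L[ℝ] H) {q c : ℝ} (hq : 1 ≤ q) (hc : 0 < c)
    (hH : UCq H q c) : ∃ c' : ℝ, 0 < c' ∧ UCq E q c' := by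
  have hq0 : 0 < q := by linarith
  by_cases hE : ∃ u : E, ‖u‖ = 1
  · obtain ⟨u, hu⟩ := hE
    obtain ⟨k, hk⟩ : ∃ k, k = supN Φ u := ⟨_, rfl⟩
    have hN : ∀ x, supN Φ x = k * ‖x‖ := fun x => by rw [hk]; exact supN_eq hG Φ hu x
    have hk0 : 0 < k := by
      have h1 := le_supN Φ u (LinearIsometryEquiv.refl ℝ E)
      have h2 : 0 < ‖Φ u‖ := by
        rw [norm_pos_iff]
        intro h
        have : u = 0 := by
          have := congrArg Φ.symm h
          rwa [Φ.symm_apply_apply, map_zero] at this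
        rw [this, norm_zero] at hu
        norm_num at hu
      rw [hk]
      exact h2.trans_le h1
    -- the lower bound of the norm
    obtain ⟨L, hL⟩ : ∃ L, L = ‖(Φ.symm : H →L[ℝ] E)‖ + 1 := ⟨_, rfl⟩
    have hL0 : 0 < L := by rw [hL]; positivity
    have hlow : ∀ x : E, ‖x‖ ≤ L * ‖Φ x‖ := by
      intro x
      have h1 := (Φ.symm : H →L[ℝ] E).le_opNorm (Φ x)
      have h2 : (Φ.symm : H →L[ℝ] E) (Φ x) = x := Φ.symm_apply_apply x
      rw [h2] at h1
      refine h1.trans ?_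
      gcongr
      rw [hL]; linarith
    have hkq : 0 < k ^ q := Real.rpow_pos_of_pos hk0 q
    have hLq : 0 < L ^ q := Real.rpow_pos_of_pos hL0 q
    refine ⟨c / (k ^ q * L ^ q), by positivity, fun x w => ?_⟩
    set R := ‖x + w‖ ^ q + ‖x - w‖ ^ q with hR
    have hT : ∀ T : E ≃ₗᵢ[ℝ] E, ‖Φ (T x)‖ ^ q ≤ (k ^ q * R - c / L ^ q * ‖w‖ ^ q) / 2 := by
      intro T
      have h1 := hH (Φ (T x)) (Φ (T w))
      rw [← map_add, ← map_sub, ← map_add, ← map_sub] at h1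
      have h2 := le_supN Φ (x + w) T
      have h3 := le_supN Φ (x - w) T
      rw [hN] at h2 h3
      have h4 := hlow (T w)
      rw [T.norm_map] at h4
      have h5 : ‖Φ (T (x + w))‖ ^ q ≤ k ^ q * ‖x + w‖ ^ q := by
        rw [← Real.mul_rpow hk0.le (norm_nonneg _)]
        exact Real.rpow_le_rpow (norm_nonneg _) h2 hq0.le
      have h6 : ‖Φ (T (x - w))‖ ^ q ≤ k ^ q * ‖x - w‖ ^ q := by
        rw [← Real.mul_rpow hk0.le (norm_nonneg _)]
        exact Real.rpow_le_rpow (norm_nonneg _) h3 hq0.le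
      have h7 : ‖w‖ ^ q ≤ L ^ q * ‖Φ (T w)‖ ^ q := by
        rw [← Real.mul_rpow hL0.le (norm_nonneg _)]
        exact Real.rpow_le_rpow (norm_nonneg _) h4 hq0.le
      have h8 : c / L ^ q * ‖w‖ ^ q ≤ c * ‖Φ (T w)‖ ^ q := by
        calc c / L ^ q * ‖w‖ ^ q ≤ c / L ^ q * (L ^ q * ‖Φ (T w)‖ ^ q) := by gcongr
          _ = c * ‖Φ (T w)‖ ^ q := by field_simp
      have h9 : k ^ q * R = k ^ q * ‖x + w‖ ^ q + k ^ q * ‖x - w‖ ^ q := by rw [hR]; ring
      rw [h9]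
      linarith
    have hnn : 0 ≤ (k ^ q * R - c / L ^ q * ‖w‖ ^ q) / 2 :=
      (Real.rpow_nonneg (norm_nonneg _) q).trans (hT (LinearIsometryEquiv.refl ℝ E))
    have hsup : supN Φ x ≤ ((k ^ q * R - c / L ^ q * ‖w‖ ^ q) / 2) ^ (1 / q) := by
      refine ciSup_le fun T => ?_
      have h1 := Real.rpow_le_rpow (Real.rpow_nonneg (norm_nonneg _) q) (hT T)
        (show 0 ≤ 1 / q by positivity)
      rwa [← Real.rpow_mul (norm_nonneg _), mul_one_div_cancel hq0.ne', Real.rpow_one] at h1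
    rw [hN] at hsup
    have h10 : k ^ q * ‖x‖ ^ q ≤ (k ^ q * R - c / L ^ q * ‖w‖ ^ q) / 2 := by
      rw [← Real.mul_rpow hk0.le (norm_nonneg _)]
      calc (k * ‖x‖) ^ q ≤ (((k ^ q * R - c / L ^ q * ‖w‖ ^ q) / 2) ^ (1 / q)) ^ q :=
            Real.rpow_le_rpow (by positivity) hsup hq0.le
        _ = _ := by rw [← Real.rpow_mul hnn, one_div_mul_cancel hq0.ne', Real.rpow_one]
    have h12 : c / (k ^ q * L ^ q) * ‖w‖ ^ q * k ^ q = c / L ^ q * ‖w‖ ^ q := by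
      field_simp
    have h13 : c / (k ^ q * L ^ q) * ‖w‖ ^ q * k ^ q ≤ (R - 2 * ‖x‖ ^ q) * k ^ q := by
      rw [h12]
      linarith
    exact le_of_mul_le_mul_right h13 hkq
  · refine ⟨1, one_pos, fun x w => ?_⟩
    have h0 : ∀ v : E, v = 0 := by
      intro v
      by_contra hv
      apply hE
      exact ⟨‖v‖⁻¹ • v, by
        rw [norm_smul, norm_inv, norm_norm, inv_mul_cancel₀ (norm_ne_zero_iff.2 hv)]⟩
    rw [h0 x, h0 w]
    simp [Real.zero_rpow hq0.ne']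

/-- cost of a decomposition -/
noncomputable def cost (Φ : E ≃L[ℝ] H) (l : List ((E ≃ₗᵢ[ℝ] E) × E)) : ℝ :=
  (l.map fun p => ‖Φ (p.1 p.2)‖).sum

/-- the vector which is decomposed -/
def total (l : List ((E ≃ₗᵢ[ℝ] E) × E)) : E := (l.map fun p => p.2).sum

lemma cost_nonneg (Φ : E ≃L[ℝ] H) (l : List ((E ≃ₗᵢ[ℝ] E) × E)) : 0 ≤ cost Φ l :=
  List.sum_nonneg (by
    intro x hx
    obtain ⟨p, -, rfl⟩ := List.mem_map.1 hx
    exact norm_nonneg _)

/-- the largest invariant norm below the Hilbert norms -/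
noncomputable def infN (Φ : E ≃L[ℝ] H) (x : E) : ℝ :=
  sInf {r | ∃ l : List ((E ≃ₗᵢ[ℝ] E) × E), total l = x ∧ cost Φ l = r}

lemma infN_bdd (Φ : E ≃L[ℝ] H) (x : E) :
    BddBelow {r | ∃ l : List ((E ≃ₗᵢ[ℝ] E) × E), total l = x ∧ cost Φ l = r} :=
  ⟨0, by rintro _ ⟨l, -, rfl⟩; exact cost_nonneg Φ l⟩

lemma infN_ne (Φ : E ≃L[ℝ] H) (x : E) :
    {r | ∃ l : List ((E ≃ₗᵢ[ℝ] E) × E), total l = x ∧ cost Φ l = r}.Nonempty :=
  ⟨_, [(LinearIsometryEquiv.refl ℝ E, x)], by simp [total], rfl⟩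

lemma infN_le (Φ : E ≃L[ℝ] H) {x : E} (l : List ((E ≃ₗᵢ[ℝ] E) × E)) (hl : total l = x) :
    infN Φ x ≤ cost Φ l := csInf_le (infN_bdd Φ x) ⟨l, hl, rfl⟩

lemma exists_near (Φ : E ≃L[ℝ] H) (x : E) {ε : ℝ} (hε : 0 < ε) :
    ∃ l : List ((E ≃ₗᵢ[ℝ] E) × E), total l = x ∧ cost Φ l < infN Φ x + ε := by
  obtain ⟨r, ⟨l, hl, rfl⟩, h⟩ := exists_lt_of_csInf_lt (infN_ne Φ x)
    (show infN Φ x < infN Φ x + ε by linarith)
  exact ⟨l, hl, h⟩

lemma infN_map (Φ : E ≃L[ℝ] H) (S : E ≃ₗᵢ[ℝ] E) (x : E) : infN Φ (S x) = infN Φ x := by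
  have h : ∀ (S : E ≃ₗᵢ[ℝ] E) (x : E), infN Φ (S x) ≤ infN Φ x := by
    intro S x
    refine le_csInf (infN_ne Φ x) ?_
    rintro _ ⟨l, hl, rfl⟩
    have h1 : total (l.map fun p => (S.symm.trans p.1, S p.2)) = S x := by
      rw [← hl]
      unfold total
      rw [List.map_map, map_list_sum, List.map_map]
      rfl
    refine (infN_le Φ _ h1).trans (le_of_eq ?_)
    unfold cost
    rw [List.map_map]
    congr 1
    refine List.map_congr_left fun p _ => ?_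
    show ‖Φ (p.1 (S.symm (S p.2)))‖ = _
    rw [S.symm_apply_apply]
  refine le_antisymm (h S x) ?_
  have := h S.symm (S x)
  rwa [S.symm_apply_apply] at this

lemma infN_smul_le (Φ : E ≃L[ℝ] H) {r : ℝ} (hr : 0 < r) (x : E) :
    infN Φ (r • x) ≤ r * infN Φ x := by
  have key : ∀ l : List ((E ≃ₗᵢ[ℝ] E) × E), total l = x → infN Φ (r • x) ≤ r * cost Φ l := by
    intro l hl
    have h1 : total (l.map fun p => (p.1, r • p.2)) = r • x := by
      rw [← hl]
      unfold total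
      rw [List.map_map, List.smul_sum, List.map_map]
      rfl
    refine (infN_le Φ _ h1).trans (le_of_eq ?_)
    unfold cost
    rw [List.map_map, ← List.sum_map_mul_left]
    congr 1
    refine List.map_congr_left fun p _ => ?_
    show ‖Φ (p.1 (r • p.2))‖ = _
    rw [map_smul, map_smul, norm_smul, Real.norm_of_nonneg hr.le]
  rw [← div_le_iff₀' hr]
  refine le_csInf (infN_ne Φ x) ?_
  rintro _ ⟨l, hl, rfl⟩
  rw [div_le_iff₀' hr]
  exact key l hl

lemma infN_smul (Φ : E ≃L[ℝ] H) {r : ℝ} (hr : 0 < r) (x : E) : infN Φ (r • x) = r * infN Φ x := by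
  refine le_antisymm (infN_smul_le Φ hr x) ?_
  have h := infN_smul_le Φ (inv_pos.2 hr) (r • x)
  rw [smul_smul, inv_mul_cancel₀ hr.ne', one_smul] at h
  calc r * infN Φ x ≤ r * (r⁻¹ * infN Φ (r • x)) := by gcongr
    _ = infN Φ (r • x) := by rw [← mul_assoc, mul_inv_cancel₀ hr.ne', one_mul]

lemma infN_lip (Φ : E ≃L[ℝ] H) (x y : E) :
    infN Φ x ≤ infN Φ y + ‖(Φ : E →L[ℝ] H)‖ * ‖x - y‖ := by
  refine le_of_forall_pos_le_add fun ε hε => ?_
  obtain ⟨l, hl, hlc⟩ := exists_near Φ y hε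
  have h1 : total ((LinearIsometryEquiv.refl ℝ E, x - y) :: l) = x := by
    have e : total ((LinearIsometryEquiv.refl ℝ E, x - y) :: l) = (x - y) + total l := by
      simp [total]
    rw [e, hl]; abel
  have h2 := infN_le Φ _ h1
  have e2 : cost Φ ((LinearIsometryEquiv.refl ℝ E, x - y) :: l) = ‖Φ (x - y)‖ + cost Φ l := by
    simp [cost]
  rw [e2] at h2
  have h3 := (Φ : E →L[ℝ] H).le_opNorm (x - y)
  have h4 : ‖(Φ : E →L[ℝ] H) (x - y)‖ = ‖Φ (x - y)‖ := rfl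
  rw [h4] at h3
  linarith

/-- by almost transitivity this is a multiple of the norm -/
lemma infN_eq (hG : AT E)
    (Φ : E ≃L[ℝ] H) {u : E} (hu : ‖u‖ = 1) (x : E) : infN Φ x = infN Φ u * ‖x‖ := by
  rcases eq_or_ne x 0 with rfl | hx
  · rw [norm_zero, mul_zero]
    apply le_antisymm
    · exact (infN_le Φ [] (by simp [total])).trans (by simp [cost])
    · refine le_csInf (infN_ne Φ 0) ?_
      rintro _ ⟨l, -, rfl⟩
      exact cost_nonneg Φ l
  · have hx0 : 0 < ‖x‖ := norm_pos_iff.2 hx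
    obtain ⟨x1, hx1⟩ : ∃ x1, x1 = ‖x‖⁻¹ • x := ⟨_, rfl⟩
    have hn1 : ‖x1‖ = 1 := by
      rw [hx1, norm_smul, norm_inv, norm_norm, inv_mul_cancel₀ hx0.ne']
    have h1 : x = ‖x‖ • x1 := by rw [hx1, smul_smul, mul_inv_cancel₀ hx0.ne', one_smul]
    have key : ∀ ε : ℝ, 0 < ε → |infN Φ x1 - infN Φ u| ≤ ‖(Φ : E →L[ℝ] H)‖ * ε := by
      intro ε hε
      obtain ⟨S, hS⟩ := hG u x1 hu hn1 ε hε
      have h2 := infN_lip Φ x1 (S u)
      have h3 := infN_lip Φ (S u) x1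
      rw [infN_map] at h2 h3
      rw [norm_sub_rev] at h2
      have h4 : ‖(Φ : E →L[ℝ] H)‖ * ‖S u - x1‖ ≤ ‖(Φ : E →L[ℝ] H)‖ * ε := by gcongr
      rw [abs_le]
      constructor <;> linarith
    have h2 : infN Φ x1 = infN Φ u := by
      rw [← sub_eq_zero, ← abs_nonpos_iff]
      refine le_of_forall_pos_le_add fun ε hε => ?_
      rw [zero_add]
      refine (key (ε / (‖(Φ : E →L[ℝ] H)‖ + 1)) (by positivity)).trans ?_
      rw [mul_div_assoc', div_le_iff₀ (by positivity)]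
      nlinarith [norm_nonneg (Φ : E →L[ℝ] H)]
    calc infN Φ x = infN Φ (‖x‖ • x1) := by rw [← h1]
      _ = infN Φ u * ‖x‖ := by rw [infN_smul Φ hx0, h2, mul_comm]

lemma pair_le {p K : ℝ} (hp : 0 ≤ p) (hK : 0 ≤ K) (hH : USp H p K) (a b : H) {S L : ℝ}
    (hS : 0 < S) (hb : ‖b‖ ≤ L) :
    ‖a + (‖a‖ / S) • b‖ + ‖a - (‖a‖ / S) • b‖ ≤ 2 * ‖a‖ + ‖a‖ * (K * (L / S) ^ p) := by
  rcases eq_or_ne a 0 with h0 | h0
  · rw [h0]; simp
  · have ha : 0 < ‖a‖ := norm_pos_iff.2 h0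
    have h1 := hH (‖a‖⁻¹ • a) ((1 / S) • b) (by
      rw [norm_smul, norm_inv, norm_norm, inv_mul_cancel₀ ha.ne'])
    have e1 : a + (‖a‖ / S) • b = ‖a‖ • (‖a‖⁻¹ • a + (1 / S) • b) := by
      rw [smul_add, smul_smul, smul_smul, mul_inv_cancel₀ ha.ne', one_smul, mul_one_div]
    have e2 : a - (‖a‖ / S) • b = ‖a‖ • (‖a‖⁻¹ • a - (1 / S) • b) := by
      rw [smul_sub, smul_smul, smul_smul, mul_inv_cancel₀ ha.ne', one_smul, mul_one_div]
    rw [e1, e2, norm_smul, norm_smul, norm_norm]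
    have h2 : ‖(1 / S) • b‖ ^ p ≤ (L / S) ^ p := by
      refine Real.rpow_le_rpow (norm_nonneg _) ?_ hp
      rw [norm_smul, Real.norm_of_nonneg (by positivity), one_div_mul_eq_div]
      gcongr
    have h3 : K * ‖(1 / S) • b‖ ^ p ≤ K * (L / S) ^ p := by gcongr
    calc ‖a‖ * ‖‖a‖⁻¹ • a + (1 / S) • b‖ + ‖a‖ * ‖‖a‖⁻¹ • a - (1 / S) • b‖
        = ‖a‖ * (‖‖a‖⁻¹ • a + (1 / S) • b‖ + ‖‖a‖⁻¹ • a - (1 / S) • b‖) := by ring
      _ ≤ ‖a‖ * (2 + K * (L / S) ^ p) := mul_le_mul_of_nonneg_left (by linarith) ha.le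
      _ = _ := by ring

/-- **smoothness of power type** -/
theorem smooth_AT (hG : AT E) (Φ : E ≃L[ℝ] H) {p K₀ : ℝ} (hp : 1 ≤ p)
    (hH₀ : USp H p K₀) : ∃ K : ℝ, 0 < K ∧ USp E p K := by
  obtain ⟨K, hK, hH⟩ : ∃ K : ℝ, 0 < K ∧ USp H p K := by
    refine ⟨|K₀| + 1, by positivity, fun x w hx => (hH₀ x w hx).trans ?_⟩
    have h1 : 0 ≤ ‖w‖ ^ p := Real.rpow_nonneg (norm_nonneg _) p
    have h2 : K₀ ≤ |K₀| + 1 := by linarith [le_abs_self K₀]
    have : K₀ * ‖w‖ ^ p ≤ (|K₀| + 1) * ‖w‖ ^ p := by gcongr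
    linarith
  by_cases hE : ∃ u : E, ‖u‖ = 1
  · obtain ⟨u, hu⟩ := hE
    obtain ⟨k, hk⟩ : ∃ k, k = infN Φ u := ⟨_, rfl⟩
    have hN : ∀ x, infN Φ x = k * ‖x‖ := fun x => by rw [hk]; exact infN_eq hG Φ hu x
    obtain ⟨L', hL'⟩ : ∃ L', L' = ‖(Φ.symm : H →L[ℝ] E)‖ + 1 := ⟨_, rfl⟩
    have hL'0 : 0 < L' := by rw [hL']; positivity
    have hlow : ∀ x : E, ‖x‖ ≤ L' * ‖Φ x‖ := by
      intro x
      have h1 := (Φ.symm : H →L[ℝ] E).le_opNorm (Φ x)
      have h2 : (Φ.symm : H →L[ℝ] E) (Φ x) = x := Φ.symm_apply_apply x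
      rw [h2] at h1
      refine h1.trans ?_
      gcongr
      rw [hL']; linarith
    have hcost : ∀ l : List ((E ≃ₗᵢ[ℝ] E) × E), ‖total l‖ ≤ L' * cost Φ l := by
      intro l
      induction l with
      | nil => simp [total, cost]
      | cons p l ih =>
        have e1 : total (p :: l) = p.2 + total l := by simp [total]
        have e2 : cost Φ (p :: l) = ‖Φ (p.1 p.2)‖ + cost Φ l := by simp [cost]
        rw [e1, e2, mul_add]
        refine (norm_add_le _ _).trans ?_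
        have h1 := hlow (p.1 p.2)
        rw [p.1.norm_map] at h1
        linarith
    have hk0 : 0 < k := by
      have h1 : 1 / L' ≤ infN Φ u := by
        refine le_csInf (infN_ne Φ u) ?_
        rintro _ ⟨l, hl, rfl⟩
        have := hcost l
        rw [hl, hu] at this
        rw [div_le_iff₀ hL'0]
        linarith
      rw [hk]
      exact lt_of_lt_of_le (by positivity) h1
    obtain ⟨L, hL⟩ : ∃ L, L = ‖(Φ : E →L[ℝ] H)‖ := ⟨_, rfl⟩
    have hL0 : 0 ≤ L := by rw [hL]; exact norm_nonneg _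
    have hup : ∀ x : E, ‖Φ x‖ ≤ L * ‖x‖ := fun x => by rw [hL]; exact (Φ : E →L[ℝ] H).le_opNorm x
    have hkp : 0 < k ^ p := Real.rpow_pos_of_pos hk0 p
    refine ⟨K * L ^ p / k ^ p + 1, by positivity, fun x w hx => ?_⟩
    -- the main estimate
    have main : ∀ ε : ℝ, 0 < ε → k * ‖x + w‖ + k * ‖x - w‖ ≤
        2 * (k + ε) + k * (K * (L * ‖w‖ / k) ^ p) := by
      intro ε hε
      obtain ⟨l, hl, hlc⟩ := exists_near Φ x hε
      rw [hN, hx, mul_one] at hlc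
      obtain ⟨S, hS⟩ : ∃ S, S = cost Φ l := ⟨_, rfl⟩
      rw [← hS] at hlc
      have hkS : k ≤ S := by
        have := infN_le Φ l hl
        rw [hN, hx, mul_one] at this
        rw [hS]; exact this
      have hS0 : 0 < S := hk0.trans_le hkS
      -- the decompositions of `x + w` and `x - w`
      have htot : ∀ s : ℝ, total (l.map fun p => (p.1, p.2 + (s * (‖Φ (p.1 p.2)‖ / S)) • w))
          = x + s • w := by
        intro s
        have gen : ∀ l' : List ((E ≃ₗᵢ[ℝ] E) × E),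
            total (l'.map fun p => (p.1, p.2 + (s * (‖Φ (p.1 p.2)‖ / S)) • w))
              = total l' + (s * (cost Φ l' / S)) • w := by
          intro l'
          induction l' with
          | nil => simp [total, cost]
          | cons p l' ih =>
            have e1 : total (p :: l') = p.2 + total l' := by simp [total]
            have e2 : cost Φ (p :: l') = ‖Φ (p.1 p.2)‖ + cost Φ l' := by simp [cost]
            have e3 : total ((p :: l').map
                fun p => (p.1, p.2 + (s * (‖Φ (p.1 p.2)‖ / S)) • w))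
                = (p.2 + (s * (‖Φ (p.1 p.2)‖ / S)) • w)
                  + total (l'.map fun p => (p.1, p.2 + (s * (‖Φ (p.1 p.2)‖ / S)) • w)) := by
              simp [total]
            rw [e3, ih, e1, e2, add_div, mul_add, add_smul]
            abel
        rw [gen, hl, ← hS, div_self hS0.ne', mul_one]
      have hA := infN_le Φ _ (htot 1)
      have hB := infN_le Φ _ (htot (-1))
      rw [one_smul, hN] at hA
      rw [neg_one_smul, ← sub_eq_add_neg, hN] at hB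
      have hsum : cost Φ (l.map fun p => (p.1, p.2 + ((1 : ℝ) * (‖Φ (p.1 p.2)‖ / S)) • w))
          + cost Φ (l.map fun p => (p.1, p.2 + ((-1 : ℝ) * (‖Φ (p.1 p.2)‖ / S)) • w))
          ≤ 2 * S + S * (K * (L * ‖w‖ / S) ^ p) := by
        have gen : ∀ l' : List ((E ≃ₗᵢ[ℝ] E) × E),
            cost Φ (l'.map fun p => (p.1, p.2 + ((1 : ℝ) * (‖Φ (p.1 p.2)‖ / S)) • w))
            + cost Φ (l'.map fun p => (p.1, p.2 + ((-1 : ℝ) * (‖Φ (p.1 p.2)‖ / S)) • w))
            ≤ 2 * cost Φ l' + cost Φ l' * (K * (L * ‖w‖ / S) ^ p) := by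
          intro l'
          induction l' with
          | nil => simp [cost]
          | cons p' l' ih =>
            have e2 : cost Φ (p' :: l') = ‖Φ (p'.1 p'.2)‖ + cost Φ l' := by simp [cost]
            have e3 : ∀ s : ℝ, cost Φ ((p' :: l').map
                fun p => (p.1, p.2 + (s * (‖Φ (p.1 p.2)‖ / S)) • w))
                = ‖Φ (p'.1 (p'.2 + (s * (‖Φ (p'.1 p'.2)‖ / S)) • w))‖
                  + cost Φ (l'.map fun p => (p.1, p.2 + (s * (‖Φ (p.1 p.2)‖ / S)) • w)) := by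
              intro s
              simp [cost]
            rw [e3, e3, e2]
            have h1 := pair_le (by linarith) hK.le hH (Φ (p'.1 p'.2)) (Φ (p'.1 w)) hS0
              (L := L * ‖w‖) (by
              have := hup (p'.1 w)
              rwa [p'.1.norm_map] at this)
            have e4 : Φ (p'.1 (p'.2 + ((1 : ℝ) * (‖Φ (p'.1 p'.2)‖ / S)) • w))
                = Φ (p'.1 p'.2) + (‖Φ (p'.1 p'.2)‖ / S) • Φ (p'.1 w) := by
              rw [map_add, map_add, map_smul, map_smul, one_mul]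
            have e5 : Φ (p'.1 (p'.2 + ((-1 : ℝ) * (‖Φ (p'.1 p'.2)‖ / S)) • w))
                = Φ (p'.1 p'.2) - (‖Φ (p'.1 p'.2)‖ / S) • Φ (p'.1 w) := by
              rw [map_add, map_add, map_smul, map_smul, neg_one_mul, neg_smul,
                ← sub_eq_add_neg]
            rw [e4, e5]
            linarith
        have := gen l
        rwa [← hS] at this
      -- monotonicity in `S`
      have h7 : S * (K * (L * ‖w‖ / S) ^ p) ≤ k * (K * (L * ‖w‖ / k) ^ p) := by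
        have e1 : ∀ M : ℝ, 0 < M → M * (K * (L * ‖w‖ / M) ^ p) =
            K * (L * ‖w‖) ^ p * M ^ (1 - p) := by
          intro M hM
          rw [Real.div_rpow (by positivity) hM.le, Real.rpow_sub hM, Real.rpow_one]
          ring
        rw [e1 S hS0, e1 k hk0]
        have e2 : S ^ (1 - p) ≤ k ^ (1 - p) :=
          Real.rpow_le_rpow_of_nonpos hk0 hkS (by linarith)
        have e3 : 0 ≤ (L * ‖w‖) ^ p := Real.rpow_nonneg (by positivity) p
        gcongr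
      linarith
    have main2 : k * ‖x + w‖ + k * ‖x - w‖ ≤ 2 * k + k * (K * (L * ‖w‖ / k) ^ p) := by
      refine le_of_forall_pos_le_add fun ε hε => ?_
      have := main (ε / 2) (by positivity)
      linarith
    have h8 : ‖x + w‖ + ‖x - w‖ ≤ 2 + K * (L * ‖w‖ / k) ^ p := by
      have h9 : k * (‖x + w‖ + ‖x - w‖) ≤ k * (2 + K * (L * ‖w‖ / k) ^ p) := by linarith
      exact le_of_mul_le_mul_left h9 hk0
    have h10 : K * (L * ‖w‖ / k) ^ p = K * L ^ p / k ^ p * ‖w‖ ^ p := by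
      rw [Real.div_rpow (by positivity) hk0.le, Real.mul_rpow hL0 (norm_nonneg _)]
      ring
    have h11 : 0 ≤ ‖w‖ ^ p := Real.rpow_nonneg (norm_nonneg _) p
    rw [h10] at h8
    linarith
  · refine ⟨1, one_pos, fun x w hx => absurd ⟨x, hx⟩ hE⟩

end Pool.Agent.N314.OP.Mod
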