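import Pool.Agent.N314.OP.Two
import Pool.Agent.N314.OP.Exact

/-!
# The Opial condition gives two-sided quadratic estimates
-/

set_option autoImplicit false

namespace Pool.Agent.N314.OP

open Filter Topology

variable {E : Type*} [NormedAddCommGroup E] [NormedSpace ℝ E]

/-- the (non-strict) Opial condition, for limits -/
def OpialL (E : Type*) [NormedAddCommGroup E] [NormedSpace ℝ E] : Prop :=
  ∀ (x : E) (l : ℝ), Lim x 1 l → 1 ≤ l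

lemma opial_lim (hO : OpialL E) {y : ℕ → E} (h0 : WN y)
    (h1 : Tendsto (fun n => ‖y n‖) atTop (𝓝 1)) {x : E} {l : ℝ}
    (h2 : Tendsto (fun n => ‖x + y n‖) atTop (𝓝 l)) : 1 ≤ l :=
  hO x l ⟨y, h0, h1, h2⟩

/-- the upper estimate -/
lemma opial_upper (hO : OpialL E) {K : ℝ}
    (hK : ∀ x w : E, ‖x‖ = 1 → ‖x + w‖ + ‖x - w‖ - 2 * ‖x‖ ≤ K * ‖w‖ ^ 2) {x : E} {l : ℝ}
    (hl : Lim x 1 l) : l ≤ 1 + K * ‖x‖ ^ 2 := by
  obtain ⟨y, h0, h1, h2⟩ := hl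
  obtain ⟨m, φ, hφ, h3⟩ := exists_lim h0 h1 (-x)
  have h4 : 1 ≤ m := opial_lim hO (h0.comp hφ) (h1.comp hφ.tendsto_atTop) h3
  have g1 := h1.comp hφ.tendsto_atTop
  have g2 := h2.comp hφ.tendsto_atTop
  have hne : ∀ᶠ n in atTop, 0 < ‖y (φ n)‖ := g1.eventually_const_lt (by norm_num)
  have h5 : Tendsto (fun n => ‖x + y (φ n)‖ + ‖-x + y (φ n)‖ - 2 * ‖y (φ n)‖) atTop
      (𝓝 (l + m - 2 * 1)) := (g2.add h3).sub (g1.const_mul 2)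
  have h6 : Tendsto (fun n => K * ‖x‖ ^ 2 * (‖y (φ n)‖)⁻¹) atTop (𝓝 (K * ‖x‖ ^ 2 * (1)⁻¹)) :=
    (g1.inv₀ one_ne_zero).const_mul _
  have h7 : l + m - 2 * 1 ≤ K * ‖x‖ ^ 2 * (1)⁻¹ := by
    refine le_of_tendsto_of_tendsto h5 h6 ?_
    filter_upwards [hne] with n hn
    set b := ‖y (φ n)‖ with hb
    have e0 : ‖b⁻¹ • y (φ n)‖ = 1 := by
      rw [norm_smul, norm_inv, Real.norm_of_nonneg hn.le, ← hb, inv_mul_cancel₀ hn.ne']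
    have e1 := hK (b⁻¹ • y (φ n)) (b⁻¹ • x) e0
    have e2 : b⁻¹ • y (φ n) + b⁻¹ • x = b⁻¹ • (x + y (φ n)) := by module
    have e3 : b⁻¹ • y (φ n) - b⁻¹ • x = b⁻¹ • (-x + y (φ n)) := by module
    rw [e0, e2, e3, norm_smul, norm_smul, norm_smul, norm_inv, Real.norm_of_nonneg hn.le] at e1
    have e4 := mul_le_mul_of_nonneg_left e1 hn.le
    have e5 : b * (b⁻¹ * ‖x + y (φ n)‖ + b⁻¹ * ‖-x + y (φ n)‖ - 2 * 1) =
        ‖x + y (φ n)‖ + ‖-x + y (φ n)‖ - 2 * b := by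
      field_simp
    have e6 : b * (K * (b⁻¹ * ‖x‖) ^ 2) = K * ‖x‖ ^ 2 * b⁻¹ := by
      field_simp
    rw [e5, e6] at e4
    exact e4
  rw [inv_one, mul_one] at h7
  linarith

/-- the lower estimate -/
lemma opial_lower (hO : OpialL E) {c : ℝ} (hc0 : 0 < c)
    (hc : ∀ x w : E, c * ‖w‖ ^ 2 ≤ ‖x + w‖ ^ 2 + ‖x - w‖ ^ 2 - 2 * ‖x‖ ^ 2) {x : E} {l : ℝ}
    (hx : ‖x‖ ≤ 1) (hl : Lim x 1 l) : 1 + c / 12 * ‖x‖ ^ 2 ≤ l := by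
  have hle : l ≤ 2 := hl.le_add.trans (by linarith)
  obtain ⟨y, h0, h1, h2⟩ := hl
  obtain ⟨m, φ, hφ, h3⟩ := exists_lim h0 h1 ((1 / 2 : ℝ) • x)
  have h4 : 1 ≤ m := opial_lim hO (h0.comp hφ) (h1.comp hφ.tendsto_atTop) h3
  have g1 := h1.comp hφ.tendsto_atTop
  have g2 := h2.comp hφ.tendsto_atTop
  have h5 : Tendsto (fun n => ‖x + y (φ n)‖ ^ 2 + ‖y (φ n)‖ ^ 2 -
      2 * ‖(1 / 2 : ℝ) • x + y (φ n)‖ ^ 2) atTop (𝓝 (l ^ 2 + 1 ^ 2 - 2 * m ^ 2)) :=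
    ((g2.pow 2).add (g1.pow 2)).sub ((h3.pow 2).const_mul 2)
  have h6 : c * (‖x‖ / 2) ^ 2 ≤ l ^ 2 + 1 ^ 2 - 2 * m ^ 2 := by
    refine ge_of_tendsto' h5 fun n => ?_
    have e1 := hc ((1 / 2 : ℝ) • x + y (φ n)) ((1 / 2 : ℝ) • x)
    have e2 : (1 / 2 : ℝ) • x + y (φ n) + (1 / 2 : ℝ) • x = x + y (φ n) := by module
    have e3 : (1 / 2 : ℝ) • x + y (φ n) - (1 / 2 : ℝ) • x = y (φ n) := by module
    have e4 : ‖(1 / 2 : ℝ) • x‖ = ‖x‖ / 2 := by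
      rw [norm_smul, Real.norm_of_nonneg (by norm_num)]; ring
    rw [e2, e3, e4] at e1
    exact e1
  have h7 : 1 ≤ m ^ 2 := by nlinarith
  have h8 : 1 ≤ l := hO x l ⟨y, h0, h1, h2⟩
  have h9 : l ^ 2 - 1 ≤ 3 * (l - 1) := by nlinarith
  nlinarith

/-- **Opial's condition gives two-sided quadratic estimates** in almost transitive Hilbertian
spaces. -/
theorem opial_TSL {H : Type*} [NormedAddCommGroup H] [InnerProductSpace ℝ H] (hA : AT E)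
    (Φ : E ≃L[ℝ] H) (hO : OpialL E) : ∃ c C : ℝ, 0 < c ∧ TSL E 2 c C := by
  obtain ⟨c, hc0, hc⟩ := two_convex hA Φ
  obtain ⟨K, _, hK⟩ := two_smooth hA Φ
  refine ⟨c / 12, K, by positivity, fun x l hx hl => ?_⟩
  rw [Real.rpow_two]
  exact ⟨opial_lower hO hc0 hc hx hl, opial_upper hO hK hl⟩

end Pool.Agent.N314.OP
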